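import Pool.Agent.X171.BL.Defs

/-! Automatic continuity of lattice homomorphisms between Banach lattices. -/

open Filter Topology

namespace Pool.Agent.X171.IP

open Pool.Agent.X171.BL (BanachLattice IsLatticeHom)

universe u v

variable {X : Type u} [NormedAddCommGroup X] [Lattice X] [NormedSpace ℝ X] [BanachLattice X]
  {Y : Type v} [NormedAddCommGroup Y] [Lattice Y] [NormedSpace ℝ Y] [BanachLattice Y]

/-- Linear maps which preserve suprema are bounded. -/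
theorem auto_bounded (T : X →ₗ[ℝ] Y) (hT : ∀ x y, T (x ⊔ y) = T x ⊔ T y) :
    ∃ C : ℝ, ∀ x, ‖T x‖ ≤ C * ‖x‖ := by
  have habs : ∀ x, T |x| = |T x| := fun x => by
    change T (x ⊔ -x) = T x ⊔ -T x
    rw [hT, map_neg]
  have hpos : ∀ x, 0 ≤ x → 0 ≤ T x := fun x hx => by
    rw [← abs_of_nonneg hx, habs]
    exact abs_nonneg _
  by_contra hcon
  push Not at hcon
  have hex : ∀ n : ℕ, ∃ y : X, 0 ≤ y ∧ ‖y‖ ≤ (1 / 2 : ℝ) ^ n ∧ (2 : ℝ) ^ n ≤ ‖T y‖ := by
    intro n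
    obtain ⟨x, hx⟩ := hcon (4 ^ n)
    have hx0 : 0 < ‖x‖ := by
      rcases eq_or_lt_of_le (norm_nonneg x) with h | h
      · rw [norm_eq_zero.1 h.symm, map_zero, norm_zero, norm_zero, mul_zero] at hx
        exact absurd hx (lt_irrefl _)
      · exact h
    refine ⟨((1 / 2 : ℝ) ^ n * ‖x‖⁻¹) • |x|, ?_, ?_, ?_⟩
    · exact smul_nonneg (by positivity) (abs_nonneg x)
    · rw [norm_smul, norm_abs_eq_norm, Real.norm_of_nonneg (by positivity), mul_assoc,
        inv_mul_cancel₀ hx0.ne', mul_one]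
    · rw [map_smul, habs, norm_smul, norm_abs_eq_norm, Real.norm_of_nonneg (by positivity)]
      calc (2 : ℝ) ^ n = (1 / 2 : ℝ) ^ n * ‖x‖⁻¹ * (4 ^ n * ‖x‖) := by
            have : (4 : ℝ) ^ n = 2 ^ n * 2 ^ n := by rw [← mul_pow]; norm_num
            rw [this, one_div, inv_pow]
            field_simp
        _ ≤ (1 / 2 : ℝ) ^ n * ‖x‖⁻¹ * ‖T x‖ := by gcongr
  choose y hy0 hy1 hy2 using hex
  have hsum : Summable y :=
    Summable.of_norm_bounded (summable_geometric_of_lt_one (by norm_num) (by norm_num)) hy1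
  have hle : ∀ n, y n ≤ ∑' k, y k := fun n => hsum.le_tsum n fun k _ => hy0 k
  have hT' : ∀ n, ‖T (y n)‖ ≤ ‖T (∑' k, y k)‖ := fun n => by
    apply norm_le_norm_of_abs_le_abs
    have h1 : 0 ≤ ∑' k, y k := (hy0 n).trans (hle n)
    rw [abs_of_nonneg (hpos _ (hy0 n)), abs_of_nonneg (hpos _ h1), ← sub_nonneg, ← map_sub]
    exact hpos _ (sub_nonneg.2 (hle n))
  obtain ⟨n, hn⟩ := pow_unbounded_of_one_lt ‖T (∑' k, y k)‖ (one_lt_two (α := ℝ))
  exact absurd ((hy2 n).trans (hT' n)) (not_le.2 hn)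

lemma map_inf_of_map_sup (T : X →ₗ[ℝ] Y) (hT : ∀ x y, T (x ⊔ y) = T x ⊔ T y) (x y : X) :
    T (x ⊓ y) = T x ⊓ T y := by
  have h : ∀ a b : X, a ⊓ b = -(-a ⊔ -b) := fun a b => by rw [neg_sup, neg_neg, neg_neg]
  have h' : ∀ a b : Y, a ⊓ b = -(-a ⊔ -b) := fun a b => by rw [neg_sup, neg_neg, neg_neg]
  rw [h, h', map_neg, hT, map_neg, map_neg]

/-- the bounded operator given by a linear map which preserves suprema -/
theorem exists_clm (T : X →ₗ[ℝ] Y) (hT : ∀ x y, T (x ⊔ y) = T x ⊔ T y) :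
    ∃ S : X →L[ℝ] Y, IsLatticeHom S ∧ ∀ x, S x = T x := by
  obtain ⟨C, hC⟩ := auto_bounded T hT
  exact ⟨T.mkContinuous C hC, ⟨fun x y => hT x y, fun x y => map_inf_of_map_sup T hT x y⟩,
    fun x => rfl⟩

end Pool.Agent.X171.IP
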