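import Pool.Agent.H63Fed.Miranda

/-! A planar covering lemma. -/

open Filter Topology

namespace Pool.Agent.X171.IP

/-- A continuous map of the closed unit disk which is the identity on the circle covers the disk
of radius `1 / 2`. -/
theorem planar {h : ℂ → ℂ} (hc : ContinuousOn h (Metric.closedBall 0 1))
    (hb : ∀ y, ‖y‖ = 1 → h y = y) {ξ : ℂ} (hξ : ‖ξ‖ ≤ 1 / 2) : ∃ y, ‖y‖ ≤ 1 ∧ h y = ξ := by
  let c : EuclideanSpace ℝ (Fin 2) → ℂ := fun x => ⟨x 0, x 1⟩
  have hcn : ∀ x, ‖c x‖ = ‖x‖ := by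
    intro x
    rw [EuclideanSpace.norm_eq, Fin.sum_univ_two, Complex.norm_def, Complex.normSq_mk]
    congr 1
    rw [Real.norm_eq_abs, Real.norm_eq_abs, sq_abs, sq_abs]
    ring
  have hcc : Continuous c := by
    have h2 : c = fun x => ((x 0 : ℝ) : ℂ) + ((x 1 : ℝ) : ℂ) * Complex.I := by
      funext x
      apply Complex.ext <;> simp [c]
    rw [h2]
    fun_prop
  let F : EuclideanSpace ℝ (Fin 2) → (Fin 2 → ℝ) := fun x => ![(h (c x) - ξ).re, (h (c x) - ξ).im]
  have hhc : ContinuousOn (fun x => h (c x)) (Metric.closedBall (0 : EuclideanSpace ℝ (Fin 2)) 1) :=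
    hc.comp hcc.continuousOn fun x hx => by
      rw [mem_closedBall_zero_iff] at hx ⊢
      rwa [hcn]
  have hF : ContinuousOn F (Metric.closedBall (0 : EuclideanSpace ℝ (Fin 2)) 1) := by
    apply continuousOn_pi.2
    intro i
    fin_cases i
    · exact Complex.continuous_re.comp_continuousOn (hhc.sub continuousOn_const)
    · exact Complex.continuous_im.comp_continuousOn (hhc.sub continuousOn_const)
  have hre := (Complex.abs_re_le_norm ξ).trans hξ
  have him := (Complex.abs_im_le_norm ξ).trans hξ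
  rw [abs_le] at hre him
  have hsq : ∀ x : EuclideanSpace ℝ (Fin 2), ‖x‖ = 1 → (x 0) ^ 2 + (x 1) ^ 2 = 1 := by
    intro x hx
    rw [EuclideanSpace.norm_eq, Fin.sum_univ_two, Real.sqrt_eq_one] at hx
    rwa [Real.norm_eq_abs, Real.norm_eq_abs, sq_abs, sq_abs] at hx
  have hF0 : ∀ x : EuclideanSpace ℝ (Fin 2), ‖x‖ = 1 → F x 0 = x 0 - ξ.re := by
    intro x hx
    show (h (c x) - ξ).re = _
    rw [hb _ (by rw [hcn, hx])]
    rfl
  have hF1 : ∀ x : EuclideanSpace ℝ (Fin 2), ‖x‖ = 1 → F x 1 = x 1 - ξ.im := by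
    intro x hx
    show (h (c x) - ξ).im = _
    rw [hb _ (by rw [hcn, hx])]
    rfl
  have hbig : ∀ a b : ℝ, a ^ 2 + b ^ 2 = 1 → |b| ≤ a → 1 / 2 ≤ a := by
    intro a b h1 h2
    have h3 : b ^ 2 ≤ a ^ 2 := by
      rw [← sq_abs b]
      exact pow_le_pow_left₀ (abs_nonneg b) h2 2
    have h4 : 0 ≤ a := (abs_nonneg b).trans h2
    nlinarith
  obtain ⟨x, hx, hx0⟩ := H63Fed.Miranda.ball_zero 2 F hF
    (by
      intro x hx i hi
      fin_cases i
      · show 0 ≤ F x 0
        rw [hF0 x hx]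
        have := hbig _ _ (hsq x hx) (hi 1)
        simp only [Fin.zero_eta] at this
        linarith
      · show 0 ≤ F x 1
        rw [hF1 x hx]
        have := hbig _ _ (by rw [add_comm]; exact hsq x hx) (hi 0)
        simp only [Fin.mk_one] at this
        linarith)
    (by
      intro x hx i hi
      fin_cases i
      · show F x 0 ≤ 0
        rw [hF0 x hx]
        have := hbig (-(x 0)) (x 1) (by rw [neg_sq]; exact hsq x hx) (hi 1)
        linarith
      · show F x 1 ≤ 0
        rw [hF1 x hx]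
        have := hbig (-(x 1)) (x 0) (by rw [neg_sq, add_comm]; exact hsq x hx) (hi 0)
        linarith)
  refine ⟨c x, ?_, ?_⟩
  · rw [hcn]
    rwa [mem_closedBall_zero_iff] at hx
  · have e0 : (h (c x) - ξ).re = 0 := congrFun hx0 0
    have e1 : (h (c x) - ξ).im = 0 := congrFun hx0 1
    rw [← sub_eq_zero]
    exact Complex.ext e0 e1

end Pool.Agent.X171.IP
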