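import Pool.Agent.X171.IP.Neg
import Pool.Agent.X171.IP.Planar

/-! `PP` is not isomorphic to an isometrically projective Banach lattice. -/

open Filter Topology

namespace Pool.Agent.X171.IP

open Pool.Agent.X171.BL (BanachLattice IsLatticeHom)
open Pool.Agent.X171.OC
open Pool.Agent.X171.SP (ClosedIdeal ClosedSublattice OnePlusProjective)

universe u v w

variable {Q : Type u} [NormedAddCommGroup Q] [Lattice Q] [NormedSpace ℝ Q] [BanachLattice Q]

lemma pad_cons_zero (j : ℕ) (x : ℕ → ℂ) : pad j (cons 0 x) = pad (j + 1) x := by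
  funext k
  unfold pad
  by_cases h : k < j
  · rw [if_pos h, if_pos (by omega)]
  · rw [if_neg h]
    by_cases h2 : k = j
    · subst h2
      rw [if_pos (by omega), Nat.sub_self]
      rfl
    · rw [if_neg (by omega)]
      obtain ⟨i, hi⟩ : ∃ i, k - j = i + 1 := ⟨k - j - 1, by omega⟩
      rw [hi, cons_succ]
      congr 1
      omega

namespace Dat

variable (D : Dat Q)

/-- the points of the circle `j` have small mass -/
def Circ (κ : ℝ) (m j : ℕ) : Prop := ∀ ζ : ℂ, ‖ζ‖ = 1 → D.InS κ m (pad j (base ζ))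

/-- **Claim D.** -/
theorem step {κ κ' : ℝ} (hκ : 0 < κ) (hκ' : κ * ((1 + D.ε) / (1 - D.ε)) ≤ κ') {m j : ℕ}
    (hj : j < m) (h0 : D.InS κ' m (base 1)) (hΛ : 2 * κ * D.B ≤ D.Λ) (hΛ' : 2 ^ j ≤ D.Λ)
    (hlarge : ∀ x ∈ WW m, (∀ γ, val m x γ ≤ D.Λ) →
      (1 - D.ε) / κ ≤ D.om (D.kh κ hκ m x) (dl none))
    (hC : D.Circ κ m j) : D.Circ κ' m (j + 1) := by
  have hε1 := D.hε1
  have hε0 := D.hε0
  have hpos : 0 < (1 - D.ε) / κ := by
    have : 0 < 1 - D.ε := by linarith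
    positivity
  let kk : ℂ → K (Ball Q) := fun y => D.kh κ hκ m (disk m j y)
  have hkk : Continuous kk := (D.kh_cont hκ m).comp (disk_cont m j)
  have hdb : ∀ y : ℂ, ‖y‖ ≤ 1 → ∀ γ, val m (disk m j y) γ ≤ D.Λ := fun y hy γ =>
    (disk_val hy γ).trans hΛ'
  have hom : ∀ y : ℂ, ‖y‖ ≤ 1 → 0 < D.om (kk y) (dl none) := fun y hy =>
    lt_of_lt_of_le hpos (hlarge _ (disk_mem hj.le hy) (hdb y hy))
  have homc : ∀ f, Continuous fun y => D.om (kk y) f := fun f => (D.om_cont f).comp hkk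
  let h : ℂ → ℂ := fun y =>
    ((1 - 2 * (D.om (kk y) (dl (some (m, j, 0))) / D.om (kk y) (dl none)) : ℝ) : ℂ) +
      ((2 * (D.om (kk y) (dl (some (m, j, 1))) / D.om (kk y) (dl none)) -
        2 * (D.om (kk y) (dl (some (m, j, 2))) / D.om (kk y) (dl none)) : ℝ) : ℂ) * Complex.I
  have hdiv : ∀ f, ContinuousOn (fun y => D.om (kk y) f / D.om (kk y) (dl none))
      (Metric.closedBall 0 1) := fun f =>
    (homc f).continuousOn.div (homc _).continuousOn fun y hy => by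
      rw [mem_closedBall_zero_iff] at hy
      exact (hom y hy).ne'
  have hhc : ContinuousOn h (Metric.closedBall 0 1) := by
    refine ContinuousOn.add ?_ (ContinuousOn.mul ?_ continuousOn_const)
    · exact Complex.continuous_ofReal.comp_continuousOn
        (continuousOn_const.sub (continuousOn_const.mul (hdiv _)))
    · exact Complex.continuous_ofReal.comp_continuousOn
        ((continuousOn_const.mul (hdiv _)).sub (continuousOn_const.mul (hdiv _)))
  -- the coordinates in terms of the state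
  have key : ∀ (z : ℂ) (c : ℝ) (y : ℂ), 0 < c → D.om (kk y) (dl none) = c →
      (∀ s : Fin 4, s ≠ 3 → D.om (kk y) (dl (some (m, j, s))) = c * ps s z) → h y = z := by
    intro z c y hc hc' hs
    have e0 : ps 0 z = (1 - z.re) / 2 := by simp [ps]
    have e1 : ps 1 z = max z.im 0 / 2 := by simp [ps]
    have e2 : ps 2 z = max (-z.im) 0 / 2 := by simp [ps]
    have f0 : D.om (kk y) (dl (some (m, j, 0))) / D.om (kk y) (dl none) = (1 - z.re) / 2 := by
      rw [hs 0 (by decide), hc', e0]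
      field_simp
    have f1 : D.om (kk y) (dl (some (m, j, 1))) / D.om (kk y) (dl none) = max z.im 0 / 2 := by
      rw [hs 1 (by decide), hc', e1]
      field_simp
    have f2 : D.om (kk y) (dl (some (m, j, 2))) / D.om (kk y) (dl none) =
        max (-z.im) 0 / 2 := by
      rw [hs 2 (by decide), hc', e2]
      field_simp
    show ((1 - 2 * (D.om (kk y) (dl (some (m, j, 0))) / D.om (kk y) (dl none)) : ℝ) : ℂ) +
      ((2 * (D.om (kk y) (dl (some (m, j, 1))) / D.om (kk y) (dl none)) -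
        2 * (D.om (kk y) (dl (some (m, j, 2))) / D.om (kk y) (dl none)) : ℝ) : ℂ) * Complex.I = z
    rw [f0, f1, f2]
    apply Complex.ext
    · simp
      ring
    · simp
      rcases le_total 0 z.im with h | h
      · rw [max_eq_left h, max_eq_right (by linarith)]
        ring
      · rw [max_eq_right h, max_eq_left (by linarith)]
        ring
  have hst : ∀ y : ℂ, ‖y‖ ≤ 1 → h y = st m (D.ze (kk y)) j := by
    intro y hy
    refine key _ (D.om (kk y) (dl none)) y (hom y hy) rfl fun s hs => ?_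
    have h1 := D.ze_some (kk y) m j s
    have hw : wt j s = 1 := by simp [wt, hs]
    rw [hw, one_mul, D.ze_ap, D.ze_ap] at h1
    have := D.B_pos.ne'
    field_simp at h1
    exact h1
  have hcirc : ∀ y : ℂ, ‖y‖ = 1 → h y = y := by
    intro y hy
    have hx := disk_mem (m := m) hj.le hy.le
    have hb := hdb y hy.le
    have hS : D.InS κ m (disk m j y) := by
      rw [disk_circle m j hy]
      exact hC y hy
    have h1 := D.om_of_InS hκ hx hb hS
    refine key y (1 / κ) y (by positivity) ?_ fun s hs => ?_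
    · rw [h1 none, val_none]
    · have hw : wt j s = 1 := by simp [wt, hs]
      rw [h1 (some (m, j, s)), val_same, hw, one_mul, disk_circle m j hy]
      have : pad j (base y) j = y := by simp [pad, base]
      rw [this]
      ring
  -- small points of cell `j`
  have hsmall : ∀ ξ : ℂ, ξ ≠ 0 → ‖ξ‖ ≤ 1 / 2 →
      D.InS κ' m (pad j (cons ξ (base (GG ξ)))) := by
    intro ξ hξ0 hξ
    obtain ⟨y, hy, hyξ⟩ := planar hhc hcirc hξ
    have h1 := D.InS_st hκ hκ' (kk y) h0 hΛ (hlarge _ (disk_mem hj.le hy) (hdb y hy))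
    have h2 : st m (D.ze (kk y)) j = ξ := by rw [← hst y hy, hyξ]
    obtain ⟨n, rfl⟩ : ∃ n, m = n + 1 := ⟨m - 1, by omega⟩
    obtain ⟨a1, a2, a3⟩ := WW_mid n _ (st_mem (n + 1) (D.ze (kk y))) j (by omega)
      (by rw [h2]; exact hξ0) (by rw [h2]; linarith)
    have h3 : st (n + 1) (D.ze (kk y)) = pad j (cons ξ (base (GG ξ))) := by
      funext i
      unfold pad
      by_cases hi : i < j
      · rw [if_pos hi, a1 i hi]
      · rw [if_neg hi]
        rcases Nat.lt_trichotomy i (j + 1) with h | h | h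
        · have : i = j := by omega
          rw [this, Nat.sub_self, cons_zero, h2]
        · have h4 : i - j = 0 + 1 := by omega
          rw [h4, cons_succ, h, a2, h2]
          rfl
        · obtain ⟨l, hl⟩ : ∃ l, i - j = (l + 1) + 1 := ⟨i - j - 2, by omega⟩
          rw [hl, cons_succ, a3 i h]
          simp [base]
    rw [← h3]
    exact h1
  -- the limit
  intro ζ hζ
  obtain ⟨v, hv, hvζ⟩ := exists_dir hζ
  let ξ : ℕ → ℂ := fun n => ((1 / ((n : ℝ) + 2) : ℝ) : ℂ) * v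
  have hn2 : ∀ n : ℕ, (0 : ℝ) < 1 / ((n : ℝ) + 2) := fun n => by positivity
  have hξn : ∀ n, ‖ξ n‖ = 1 / ((n : ℝ) + 2) := by
    intro n
    simp only [ξ]
    rw [norm_mul, Complex.norm_real, Real.norm_of_nonneg (hn2 n).le, hv, mul_one]
  have hξ0 : ∀ n, ξ n ≠ 0 := by
    intro n h
    have := hξn n
    rw [h, norm_zero] at this
    linarith [hn2 n]
  have hξ2 : ∀ n, ‖ξ n‖ ≤ 1 / 2 := by
    intro n
    rw [hξn]
    apply one_div_le_one_div_of_le two_pos
    have : (0 : ℝ) ≤ n := Nat.cast_nonneg n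
    linarith
  have hvv : ∀ n, vv (ξ n) = v := by
    intro n
    unfold vv
    rw [hξn]
    simp only [ξ]
    have : ((1 / ((n : ℝ) + 2) : ℝ) : ℂ) ≠ 0 := by exact_mod_cast (hn2 n).ne'
    field_simp
  have hlim : Tendsto (fun n : ℕ => 1 / ((n : ℝ) + 2)) atTop (𝓝 0) := by
    have h1 : Tendsto (fun n : ℕ => (n : ℝ) + 2) atTop atTop :=
      tendsto_atTop_add_const_right _ _ tendsto_natCast_atTop_atTop
    have h2 := tendsto_inv_atTop_zero.comp h1
    refine h2.congr fun n => ?_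
    simp
  have hξlim : Tendsto ξ atTop (𝓝 0) := by
    rw [tendsto_zero_iff_norm_tendsto_zero]
    exact hlim.congr fun n => (hξn n).symm
  have hGlim : Tendsto (fun n => GG (ξ n)) atTop (𝓝 ζ) := by
    have h1 : ∀ n, GG (ξ n) = ee (max (1 - 1 / ((n : ℝ) + 2)) 0 * ((1 - v.re) / 2)) := by
      intro n
      unfold GG TT
      rw [hvv, hξn]
    have h2 : Tendsto (fun n : ℕ => max (1 - 1 / ((n : ℝ) + 2)) 0 * ((1 - v.re) / 2)) atTop
        (𝓝 (max (1 - 0) 0 * ((1 - v.re) / 2))) :=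
      ((tendsto_const_nhds.sub hlim).max tendsto_const_nhds).mul tendsto_const_nhds
    have h3 : max (1 - 0) 0 * ((1 - v.re) / 2) = (1 - v.re) / 2 := by
      rw [sub_zero, max_eq_left zero_le_one, one_mul]
    rw [h3] at h2
    have h4 := (continuous_ee.tendsto _).comp h2
    rw [hvζ] at h4
    exact h4.congr fun n => (h1 n).symm
  have hstate : Tendsto (fun n => pad j (cons (ξ n) (base (GG (ξ n))))) atTop
      (𝓝 (pad j (cons 0 (base ζ)))) := by
    rw [tendsto_pi_nhds]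
    intro i
    unfold pad
    by_cases hi : i < j
    · simp only [hi, if_true]
      exact tendsto_const_nhds
    · simp only [hi, if_false]
      cases h : i - j with
      | zero =>
        simp only [cons_zero]
        exact hξlim
      | succ l =>
        simp only [cons_succ]
        unfold base
        by_cases hl : l = 0
        · simp only [hl, if_true]
          exact hGlim
        · simp only [hl, if_false]
          exact tendsto_const_nhds
  rw [pad_cons_zero] at hstate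
  exact (D.isClosed_InS κ' m).mem_of_tendsto hstate
    (Eventually.of_forall fun n => hsmall (ξ n) (hξ0 n) (hξ2 n))

lemma InS_mono {κ κ' : ℝ} (h : κ ≤ κ') {m : ℕ} {x : ℕ → ℂ} (hS : D.InS κ m x) :
    D.InS κ' m x := fun a => (hS a).trans h

/-- the first circle -/
lemma circ_zero (m : ℕ) {ζ : ℂ} (hζ : ‖ζ‖ = 1) : D.InS (‖D.Ψ‖ + 1) m (base ζ) := by
  intro a
  have hx := base_mem m hζ
  have hv := val_base_le m hζ
  have hv0 := val_nonneg (m := m) (WW_norm m _ hx)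
  have hb : ∀ γ, val m (base ζ) γ ≤ D.Λ := fun γ => (hv γ).trans D.hΛ
  let k' : K Ix := fun γ => ⟨val m (base ζ) γ, hv0 γ, hv γ⟩
  have hΛ := D.Λ_pos
  have h1 : (D.fn a.1).1 (pt D.Λ m (base ζ)) = (1 / D.Λ) * (D.fn a.1).1 k' := by
    apply homog' _ (by positivity)
    intro γ
    rw [pt_ap hΛ hx hb]
    show val m (base ζ) γ / D.Λ = 1 / D.Λ * val m (base ζ) γ
    ring
  rw [h1, ← mul_assoc, mul_one_div_cancel hΛ.ne', one_mul]
  have h2 := le_nrm (D.fn a.1) k'
  rw [← norm_def] at h2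
  have h3 := D.norm_fn a.1
  have h4 : ‖D.Ψ‖ * ‖a.1‖ ≤ ‖D.Ψ‖ * 1 := mul_le_mul_of_nonneg_left a.2.2 (norm_nonneg _)
  linarith [le_abs_self ((D.fn a.1).1 k')]

/-- the last circle has large mass -/
lemma circ_large {κ : ℝ} {m J : ℕ} (hJ : J + 1 ≤ m) (hΛ : 2 ^ (J + 1) ≤ D.Λ)
    (hC : D.Circ κ m (J + 1)) : (2 : ℝ) ^ J ≤ (4 * ‖D.Φ‖ + 1) * κ := by
  have hc : 0 < 4 * ‖D.Φ‖ + 1 := by positivity
  have hpos : 0 < D.Λ := D.Λ_pos
  have hx0 := disk_mem (m := m) (j := J + 1) hJ (y := 1) norm_one.le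
  rw [disk_circle m (J + 1) norm_one] at hx0
  have hb : ∀ γ, val m (pad (J + 1) (base 1)) γ ≤ D.Λ := by
    intro γ
    have := disk_val (m := m) (j := J + 1) (y := 1) norm_one.le γ
    rw [disk_circle m (J + 1) norm_one] at this
    exact this.trans hΛ
  let b : Q := (4 * ‖D.Φ‖ + 1)⁻¹ • D.Φ (pj' (dl (some (m, J, 3))))
  have hb0 : 0 ≤ b :=
    smul_nonneg (inv_pos.2 hc).le (D.hΦ.nonneg (pj'_hom.nonneg (dl_nonneg _)))
  have hb1 : ‖b‖ ≤ 1 := by
    have h3 := D.Φ.le_opNorm (pj' (dl (some (m, J, 3))))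
    have h4 := pj'.le_of_opNorm_le norm_pj' (dl (some (m, J, 3)))
    have h5 := norm_dl_le (some (m, J, 3) : Ix)
    have h6 : ‖pj' (dl (some (m, J, 3)))‖ ≤ 4 := by linarith
    have h7 : ‖D.Φ (pj' (dl (some (m, J, 3))))‖ ≤ ‖D.Φ‖ * 4 := h3.trans (by gcongr)
    show ‖(4 * ‖D.Φ‖ + 1)⁻¹ • D.Φ (pj' (dl (some (m, J, 3))))‖ ≤ 1
    rw [norm_smul, norm_inv, Real.norm_of_nonneg hc.le, inv_mul_le_iff₀ hc]
    linarith
  have h1 := hC 1 norm_one ⟨b, hb0, hb1⟩
  have h2 : D.fn b = (4 * ‖D.Φ‖ + 1)⁻¹ • ww (some (m, J, 3)) := by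
    show PS.incl (D.Ψ ((4 * ‖D.Φ‖ + 1)⁻¹ • D.Φ (pj' (dl (some (m, J, 3)))))) = _
    rw [map_smul, map_smul, D.ΨΦ, incl_pj', pj_dl]
  have h3 : (D.fn b).1 (pt D.Λ m (pad (J + 1) (base 1))) =
      (4 * ‖D.Φ‖ + 1)⁻¹ * (2 ^ J / D.Λ) := by
    rw [h2]
    show (4 * ‖D.Φ‖ + 1)⁻¹ * (ww (some (m, J, 3))).1 _ = _
    rw [ww_pt hpos hx0 hb, pt_ap hpos hx0 hb, val_same]
    have e1 : pad (J + 1) (base 1) J = 0 := by simp [pad]
    rw [e1]
    simp [wt, ps]
  have h4 : D.Λ * (D.fn b).1 (pt D.Λ m (pad (J + 1) (base 1))) ≤ κ := h1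
  rw [h3] at h4
  have h5 : D.Λ * ((4 * ‖D.Φ‖ + 1)⁻¹ * (2 ^ J / D.Λ)) = 2 ^ J / (4 * ‖D.Φ‖ + 1) := by
    field_simp
  rw [h5, div_le_iff₀ hc] at h4
  linarith

end Dat

/-- **`PP` is not isomorphic to an isometrically projective Banach lattice.** -/
theorem no_iso (hQ : OnePlusProjective.{u, u} Q) (Φ : PP →L[ℝ] Q) (Ψ : Q →L[ℝ] PP)
    (hΦ : IsLatticeHom Φ) (hΨ : IsLatticeHom Ψ) (ΨΦ : ∀ x, Ψ (Φ x) = x)
    (ΦΨ : ∀ y, Φ (Ψ y) = y) : False := by
  obtain ⟨J, hJ⟩ := pow_unbounded_of_one_lt ((4 * ‖Φ‖ + 1) * (2 * (‖Ψ‖ + 1))) one_lt_two (R := ℝ)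
  -- the choice of `ε`
  obtain ⟨ε, ⟨hε1, hε2⟩, hε0⟩ : ∃ ε : ℝ, (((1 + ε) / (1 - ε)) ^ (J + 1) < 2 ∧ ε < 1 / 2) ∧
      ε ∈ Set.Ioi (0 : ℝ) := by
    have h1 : ContinuousAt (fun ε : ℝ => ((1 + ε) / (1 - ε)) ^ (J + 1)) 0 := by
      apply ContinuousAt.pow
      apply ContinuousAt.div (by fun_prop) (by fun_prop)
      norm_num
    have h2 : ∀ᶠ ε : ℝ in 𝓝 0, ((1 + ε) / (1 - ε)) ^ (J + 1) < 2 := by
      have := h1.tendsto
      apply this.eventually (gt_mem_nhds ?_)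
      norm_num
    have h3 : ∀ᶠ ε : ℝ in 𝓝 0, ε < 1 / 2 := gt_mem_nhds (by norm_num)
    exact (((h2.and h3).filter_mono nhdsWithin_le_nhds).and
      (self_mem_nhdsWithin : Set.Ioi (0 : ℝ) ∈ 𝓝[>] (0 : ℝ))).exists
  have hε0' : 0 < ε := hε0
  obtain ⟨q, i, hq, hi, hqi, hqd, hin⟩ := exists_section_eps hQ hε0'
  set κ₁ := ‖Ψ‖ + 1 with hκ₁
  have hκ₁pos : 0 < κ₁ := by positivity
  let D : Dat Q :=
    { Φ := Φ, Ψ := Ψ, hΦ := hΦ, hΨ := hΨ, ΨΦ := ΨΦ, ΦΨ := ΦΨ, q := q, i := i, hq := hq, hi := hi,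
      qi := hqi, qd := hqd, ε := ε, hε0 := hε0', hε1 := hε2.le, hin := hin
      Λ := max (2 ^ (J + 1)) (4 * κ₁ * (8 * ‖Φ‖ + 1))
      hΛ := le_max_of_le_left (one_le_pow₀ one_le_two) }
  have hDε : D.ε = ε := rfl
  have hDB : D.B = 8 * ‖Φ‖ + 1 := rfl
  set ρ := (1 + ε) / (1 - ε) with hρ
  have h1ε : 0 < 1 - ε := by linarith
  have hρ1 : 1 ≤ ρ := by
    rw [hρ, one_le_div h1ε]
    linarith
  have hρ0 : 0 < ρ := by linarith
  let κ : ℕ → ℝ := fun j => κ₁ * ρ ^ j
  have hκpos : ∀ j, 0 < κ j := fun j => by positivity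
  have hκle : ∀ j, j ≤ J + 1 → κ j ≤ 2 * κ₁ := by
    intro j hj
    have h2 : ρ ^ j ≤ ρ ^ (J + 1) := pow_le_pow_right₀ hρ1 hj
    show κ₁ * ρ ^ j ≤ _
    nlinarith
  have hκge : ∀ j, κ₁ ≤ κ j := fun j => le_mul_of_one_le_right hκ₁pos.le (one_le_pow₀ hρ1)
  have hbase : ∀ j m, D.InS (κ j) m (base 1) := fun j m =>
    D.InS_mono (hκge j) (D.circ_zero m norm_one)
  choose m₀ hm₀ using fun j => D.om_large (hκpos j) (hbase j)
  set m := J + 1 + ∑ j ∈ Finset.range (J + 1), m₀ j with hm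
  have hmJ : J + 1 ≤ m := Nat.le_add_right _ _
  have hm₀m : ∀ j, j < J + 1 → m₀ j ≤ m := by
    intro j hj
    have := Finset.single_le_sum (f := m₀) (fun _ _ => Nat.zero_le _) (Finset.mem_range.2 hj)
    omega
  have hmain : ∀ j, j ≤ J + 1 → D.Circ (κ j) m j := by
    intro j
    induction j with
    | zero =>
      intro _ ζ hζ
      rw [pad_zero]
      exact D.InS_mono (hκge 0) (D.circ_zero m hζ)
    | succ j ih =>
      intro hj
      refine D.step (hκpos j) ?_ (by omega) (hbase (j + 1) m) ?_ ?_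
        (fun x hx hb => hm₀ j m (hm₀m j (by omega)) x hx hb) (ih (by omega))
      · show κ₁ * ρ ^ j * ρ ≤ κ₁ * ρ ^ (j + 1)
        rw [pow_succ, mul_assoc]
      · have h3 := hκle j (by omega)
        rw [hDB]
        refine le_trans ?_ (le_max_right _ _)
        have h4 : 0 < 8 * ‖Φ‖ + 1 := by positivity
        nlinarith
      · refine le_trans ?_ (le_max_left _ _)
        exact pow_le_pow_right₀ one_le_two (by omega)
  have hfin := D.circ_large hmJ (le_max_left _ _) (hmain (J + 1) le_rfl)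
  have h5 : (4 * ‖Φ‖ + 1) * κ (J + 1) ≤ (4 * ‖Φ‖ + 1) * (2 * κ₁) := by
    have := hκle (J + 1) le_rfl
    gcongr
  have h6 : (2 : ℝ) ^ J ≤ (4 * ‖Φ‖ + 1) * κ (J + 1) := hfin
  linarith

end Pool.Agent.X171.IP
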