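import Pool.Agent.X171.IP.Pts
import Pool.Agent.X171.OC.Sec

/-! Isometrically projective Banach lattices isomorphic to `PP`: the transfer of states. -/

open Filter Topology

namespace Pool.Agent.X171.IP

open Pool.Agent.X171.BL (BanachLattice IsLatticeHom)
open Pool.Agent.X171.OC
open Pool.Agent.X171.SP (ClosedIdeal ClosedSublattice OnePlusProjective)

universe u v w

section

variable {X : Type u} [NormedAddCommGroup X] [Lattice X] [NormedSpace ℝ X] [BanachLattice X]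

/-- An isometrically projective Banach lattice is a retract of the lattice of functions on a cube,
with a section of norm at most `1 + ε`. -/
theorem exists_section_eps (hX : OnePlusProjective.{u, u} X) {ε : ℝ} (hε : 0 < ε) :
    ∃ (q : P (Ball X) →L[ℝ] X) (i : X →L[ℝ] P (Ball X)), IsLatticeHom q ∧ IsLatticeHom i ∧
      (∀ x, q (i x) = x) ∧ (∀ a, q (dl a) = a.1) ∧ ‖i‖ ≤ 1 + ε := by
  obtain ⟨q, hq, hqG, -⟩ := exists_hom (A := Ball X) (u := fun a : Ball X => a.1)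
    (fun a => a.2.1) (C := 1) (fun a => a.2.2) zero_le_one
  have hqd : ∀ a : Ball X, q (dl a) = a.1 := fun a =>
    Gp_unique (fun a : Ball X => a.2.1) (C := 1) (fun a => a.2.2) zero_le_one (hqG _)
      (subset_closure (Gen.pi a))
  choose r hr hr' using exists_pre hq hqd
  let J : ClosedIdeal (P (Ball X)) :=
    { LinearMap.ker q.toLinearMap with
      solid' := fun x y hx hxy => by
        have hx' : q x = 0 := hx
        show q y = 0
        have h1 : |q y| ≤ |q x| := by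
          rw [← hq.abs, ← hq.abs]
          exact hq.mono hxy
        have h2 := Pool.Agent.X171.BL.norm_le_of_abs_le h1
        rw [hx', norm_zero] at h2
        exact norm_le_zero_iff.1 h2
      closed' := q.isClosed_ker }
  have hJ : ∀ x, x ∈ J ↔ q x = 0 := fun x => Iff.rfl
  have hkey : ∀ w x, q w = x → J.proj (r x) = J.proj w := by
    intro w x h
    rw [J.mk_eq_iff, hJ, map_sub, hr, h, sub_self]
  let T : X →L[ℝ] J.Quo := LinearMap.mkContinuous
    { toFun := fun x => J.proj (r x)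
      map_add' := fun x y => by
        rw [hkey (r x + r y) _ (by rw [map_add, hr, hr]), map_add]
      map_smul' := fun c x => by
        rw [hkey (c • r x) _ (by rw [map_smul, hr]), map_smul]
        rfl } 1 fun x => by
          rw [one_mul]
          exact (J.norm_mk_le _).trans (hr' x)
  have hT1 : ‖T‖ ≤ 1 := LinearMap.mkContinuous_norm_le _ zero_le_one _
  have hT : IsLatticeHom T := by
    refine ⟨fun x y => ?_, fun x y => ?_⟩
    · show J.proj (r (x ⊔ y)) = J.proj (r x) ⊔ J.proj (r y)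
      rw [hkey (r x ⊔ r y) _ (by rw [hq.sup, hr, hr]), J.mk_sup']
    · show J.proj (r (x ⊓ y)) = J.proj (r x) ⊓ J.proj (r y)
      rw [hkey (r x ⊓ r y) _ (by rw [hq.inf, hr, hr]), J.mk_inf']
  obtain ⟨S, hS, hS1, hS2⟩ := hX (P (Ball X)) J T hT ε hε
  refine ⟨q, S, hq, hS, fun x => ?_, hqd, ?_⟩
  · have h1 : J.proj (S x) = J.proj (r x) := hS1 x
    rw [J.mk_eq_iff, hJ, map_sub, hr, sub_eq_zero] at h1
    exact h1
  · refine hS2.trans ?_
    have : (1 + ε) * ‖T‖ ≤ (1 + ε) * 1 := by gcongr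
    linarith

end

variable {Q : Type u} [NormedAddCommGroup Q] [Lattice Q] [NormedSpace ℝ Q] [BanachLattice Q]

variable (Q) in
/-- The data: an isomorphism of `PP` onto `Q` and a section. -/
structure Dat where
  Φ : PP →L[ℝ] Q
  Ψ : Q →L[ℝ] PP
  hΦ : IsLatticeHom Φ
  hΨ : IsLatticeHom Ψ
  ΨΦ : ∀ x, Ψ (Φ x) = x
  ΦΨ : ∀ y, Φ (Ψ y) = y
  q : P (Ball Q) →L[ℝ] Q
  i : Q →L[ℝ] P (Ball Q)
  hq : IsLatticeHom q
  hi : IsLatticeHom i
  qi : ∀ y, q (i y) = y
  qd : ∀ a, q (dl a) = a.1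
  ε : ℝ
  hε0 : 0 < ε
  hε1 : ε ≤ 1 / 2
  hin : ‖i‖ ≤ 1 + ε
  Λ : ℝ
  hΛ : 1 ≤ Λ

namespace Dat

variable (D : Dat Q)

lemma Λ_pos : 0 < D.Λ := lt_of_lt_of_le one_pos D.hΛ

/-- elements of `Q` as functions on the cube -/
noncomputable def fn (y : Q) : P Ix := PS.incl (D.Ψ y)

lemma fn_nonneg {y : Q} (hy : 0 ≤ y) : 0 ≤ D.fn y := PS.incl_hom.nonneg (D.hΨ.nonneg hy)

lemma pj_fn (y : Q) : pj (D.fn y) = D.fn y := pj_incl _

lemma norm_fn (y : Q) : ‖D.fn y‖ ≤ ‖D.Ψ‖ * ‖y‖ := by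
  show ‖PS.incl (D.Ψ y)‖ ≤ _
  rw [PS.norm_incl]
  exact D.Ψ.le_opNorm y

/-- the state `x` of block `m` has mass at most `κ` -/
def InS (κ : ℝ) (m : ℕ) (x : ℕ → ℂ) : Prop :=
  ∀ a : Ball Q, D.Λ * (D.fn a.1).1 (pt D.Λ m x) ≤ κ

lemma isClosed_InS (κ : ℝ) (m : ℕ) : IsClosed {x | D.InS κ m x} := by
  have : {x | D.InS κ m x} = ⋂ a : Ball Q, {x | D.Λ * (D.fn a.1).1 (pt D.Λ m x) ≤ κ} := by
    ext x
    simp [InS]
  rw [this]
  exact isClosed_iInter fun a => isClosed_le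
    (continuous_const.mul ((cont _).comp (pt_cont _ _))) continuous_const

/-- truncated points -/
noncomputable def kh (κ : ℝ) (hκ : 0 < κ) (m : ℕ) (x : ℕ → ℂ) : K (Ball Q) := fun a =>
  ⟨min (D.Λ * (D.fn a.1).1 (pt D.Λ m x) / κ) 1,
    le_min (div_nonneg (mul_nonneg D.Λ_pos.le (D.fn_nonneg a.2.1 _)) hκ.le) zero_le_one,
    min_le_right _ _⟩

lemma kh_ap {κ : ℝ} (hκ : 0 < κ) (m : ℕ) (x : ℕ → ℂ) (a : Ball Q) :
    (D.kh κ hκ m x a : ℝ) = min (D.Λ * (D.fn a.1).1 (pt D.Λ m x) / κ) 1 := rfl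

lemma kh_cont {κ : ℝ} (hκ : 0 < κ) (m : ℕ) : Continuous (D.kh κ hκ m) := by
  apply continuous_pi
  intro a
  apply Continuous.subtype_mk
  exact ((continuous_const.mul ((cont _).comp (pt_cont _ _))).div_const _).min continuous_const

/-- the transferred homomorphism -/
noncomputable def om (k : K (Ball Q)) : P Ix →L[ℝ] ℝ :=
  (evl k).comp (D.i.comp (D.Φ.comp pj'))

lemma om_ap (k : K (Ball Q)) (f : P Ix) : D.om k f = (D.i (D.Φ (pj' f))).1 k := rfl

lemma om_hom (k : K (Ball Q)) : IsLatticeHom (D.om k) :=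
  (evl_hom k).comp (D.hi.comp (D.hΦ.comp pj'_hom))

lemma om_cont (f : P Ix) : Continuous fun k => D.om k f := cont _

lemma om_pj (k : K (Ball Q)) (f : P Ix) : D.om k (pj f) = D.om k f := by
  have h : pj' (pj f) = pj' f := PS.incl_inj (by rw [incl_pj', incl_pj', pj_pj])
  rw [om_ap, om_ap, h]

/-- the bound -/
noncomputable def B : ℝ := 8 * ‖D.Φ‖ + 1

lemma B_pos : 0 < D.B := by
  unfold B
  positivity

lemma om_dl_le (k : K (Ball Q)) (γ : Ix) : D.om k (dl γ) ≤ D.B := by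
  rw [om_ap]
  have h1 := le_nrm (D.i (D.Φ (pj' (dl γ)))) k
  rw [← norm_def] at h1
  have h2 := D.i.le_of_opNorm_le D.hin (D.Φ (pj' (dl γ)))
  have h3 := D.Φ.le_opNorm (pj' (dl γ))
  have h4 := pj'.le_of_opNorm_le norm_pj' (dl γ)
  have h5 := norm_dl_le γ
  have h6 : ‖pj' (dl γ)‖ ≤ 4 := by linarith
  have h7 : ‖D.Φ (pj' (dl γ))‖ ≤ ‖D.Φ‖ * 4 := h3.trans (by gcongr)
  have h8 : (1 + D.ε) * ‖D.Φ (pj' (dl γ))‖ ≤ 2 * (‖D.Φ‖ * 4) := by
    have := D.hε1
    have := D.hε0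
    gcongr
    linarith
  have h9 := le_abs_self ((D.i (D.Φ (pj' (dl γ)))).1 k)
  unfold B
  linarith

/-- the transferred point, scaled by `1 / B` -/
noncomputable def ze (k : K (Ball Q)) : K Ix := fun γ =>
  ⟨D.om k (dl γ) / D.B, div_nonneg ((D.om_hom k).nonneg (dl_nonneg γ)) D.B_pos.le, by
    rw [div_le_one D.B_pos]
    exact D.om_dl_le k γ⟩

lemma ze_ap (k : K (Ball Q)) (γ : Ix) : (D.ze k γ : ℝ) = D.om k (dl γ) / D.B := rfl

lemma om_eq (k : K (Ball Q)) (f : P Ix) : D.om k f = D.B * f.1 (D.ze k) := by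
  have h2 : D.om k = D.B • evl (D.ze k) := by
    apply hom_ext (D.om_hom k) (SP.smul_hom (evl_hom _) D.B_pos.le)
    intro γ
    show D.om k (dl γ) = D.B * (D.ze k γ : ℝ)
    rw [ze_ap, mul_div_cancel₀ _ D.B_pos.ne']
  exact congrArg (fun T : P Ix →L[ℝ] ℝ => T f) h2

lemma ww_ze (k : K (Ball Q)) (γ : Ix) : (ww γ).1 (D.ze k) = D.ze k γ := by
  have h1 := D.om_pj k (dl γ)
  rw [D.om_eq, D.om_eq, pj_dl] at h1
  exact mul_left_cancel₀ D.B_pos.ne' h1

lemma om_fn (k : K (Ball Q)) (a : Ball Q) : D.om k (D.fn a.1) ≤ 1 + D.ε := by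
  have h0 : pj' (D.fn a.1) = D.Ψ a.1 := pj'_incl _
  rw [om_ap, h0, D.ΦΨ]
  have h1 := le_nrm (D.i a.1) k
  rw [← norm_def] at h1
  have h2 := D.i.le_of_opNorm_le D.hin a.1
  have h3 : (1 + D.ε) * ‖a.1‖ ≤ (1 + D.ε) * 1 := by
    have := D.hε0
    gcongr
    exact a.2.2
  linarith [le_abs_self ((D.i a.1).1 k)]

/-- **Claim A.** States of small mass are not moved. -/
lemma om_of_InS {κ : ℝ} (hκ : 0 < κ) {m : ℕ} {x : ℕ → ℂ} (hx : x ∈ WW m)
    (hb : ∀ γ, val m x γ ≤ D.Λ) (hS : D.InS κ m x) (γ : Ix) :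
    D.om (D.kh κ hκ m x) (dl γ) = val m x γ / κ := by
  have hc : 0 ≤ D.Λ / κ := div_nonneg D.Λ_pos.le hκ.le
  have h1 : evl (D.kh κ hκ m x) = (D.Λ / κ) •
      ((evl (pt D.Λ m x)).comp (PS.incl.comp (D.Ψ.comp D.q))) := by
    apply hom_ext (evl_hom _)
      (SP.smul_hom ((evl_hom _).comp (PS.incl_hom.comp (D.hΨ.comp D.hq))) hc)
    intro a
    show (D.kh κ hκ m x a : ℝ) = (D.Λ / κ) * (PS.incl (D.Ψ (D.q (dl a)))).1 (pt D.Λ m x)
    rw [D.qd, kh_ap, min_eq_left]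
    · show D.Λ * (D.fn a.1).1 (pt D.Λ m x) / κ = D.Λ / κ * (D.fn a.1).1 (pt D.Λ m x)
      ring
    · rw [div_le_one hκ]
      exact hS a
  have h2 : D.om (D.kh κ hκ m x) (dl γ) = (D.Λ / κ) *
      (PS.incl (D.Ψ (D.q (D.i (D.Φ (pj' (dl γ))))))).1 (pt D.Λ m x) :=
    congrArg (fun T : P (Ball Q) →L[ℝ] ℝ => T (D.i (D.Φ (pj' (dl γ))))) h1
  rw [h2, D.qi, D.ΨΦ, incl_pj', pj_dl, ww_pt D.Λ_pos hx hb, pt_ap D.Λ_pos hx hb]
  have := D.Λ_pos.ne'
  field_simp

/-- the coordinates of a transferred point -/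
lemma ze_some (k : K (Ball Q)) (m j : ℕ) (s : Fin 4) :
    (D.ze k (some (m, j, s)) : ℝ) = wt j s * (D.ze k none * ps s (st m (D.ze k) j)) := by
  rw [← D.ww_ze, ww_some]

/-- **Claim B.** The transferred state has small mass. -/
lemma InS_st {κ κ' : ℝ} (hκ : 0 < κ) (hκ' : κ * ((1 + D.ε) / (1 - D.ε)) ≤ κ') {m : ℕ}
    (k : K (Ball Q)) (h0 : D.InS κ' m (base 1)) (hΛ : 2 * κ * D.B ≤ D.Λ)
    (hom : (1 - D.ε) / κ ≤ D.om k (dl none)) : D.InS κ' m (st m (D.ze k)) := by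
  have hε1 := D.hε1
  have hε0 := D.hε0
  have h1ε : 0 < 1 - D.ε := by linarith
  have hompos : 0 < D.om k (dl none) := lt_of_lt_of_le (by positivity) hom
  have hBpos := D.B_pos
  have hz0 : 0 < (D.ze k none : ℝ) := by
    rw [ze_ap]
    positivity
  by_cases hother : ∀ m', m' ≠ m → ∀ j s, (D.ze k (some (m', j, s)) : ℝ) = 0
  · -- the transferred point is in block `m`
    set x := st m (D.ze k) with hx
    have hxm : x ∈ WW m := st_mem m _
    have hval : ∀ γ, (D.ze k γ : ℝ) = D.ze k none * val m x γ := by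
      intro γ
      rcases γ with _ | ⟨m', j, s⟩
      · rw [val_none, mul_one]
      · by_cases h : m' = m
        · subst h
          rw [val_same, ze_some]
          ring
        · rw [val_other h, hother m' h, mul_zero]
    have hb : ∀ γ, val m x γ ≤ D.Λ := by
      intro γ
      have h1 : val m x γ = D.om k (dl γ) / D.om k (dl none) := by
        have := hval γ
        rw [ze_ap, ze_ap] at this
        field_simp at this ⊢
        linarith
      rw [h1, div_le_iff₀ hompos]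
      have h2 := D.om_dl_le k γ
      have h3 : D.B ≤ D.Λ * ((1 - D.ε) / κ) := by
        have h4 : 2 * κ * D.B * ((1 - D.ε) / κ) ≤ D.Λ * ((1 - D.ε) / κ) := by
          gcongr
        have h5 : 2 * κ * D.B * ((1 - D.ε) / κ) = 2 * (1 - D.ε) * D.B := by
          field_simp
        rw [h5] at h4
        have h6 : 1 * D.B ≤ 2 * (1 - D.ε) * D.B := by
          gcongr
          linarith
        linarith
      have h4 : D.Λ * ((1 - D.ε) / κ) ≤ D.Λ * D.om k (dl none) :=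
        mul_le_mul_of_nonneg_left hom D.Λ_pos.le
      linarith
    intro a
    have h2 : (D.fn a.1).1 (D.ze k) = (D.ze k none * D.Λ) * (D.fn a.1).1 (pt D.Λ m x) := by
      apply homog' _ (mul_nonneg hz0.le D.Λ_pos.le)
      intro γ
      rw [hval γ, pt_ap D.Λ_pos hxm hb]
      have := D.Λ_pos.ne'
      field_simp
    have h3 := D.om_fn k a
    rw [D.om_eq, h2] at h3
    have h4 : D.om k (dl none) = D.B * D.ze k none := by
      rw [ze_ap]
      field_simp
    have h5 : D.om k (dl none) * (D.Λ * (D.fn a.1).1 (pt D.Λ m x)) ≤ 1 + D.ε := by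
      rw [h4]
      calc D.B * (D.ze k none) * (D.Λ * (D.fn a.1).1 (pt D.Λ m x))
          = D.B * (D.ze k none * D.Λ * (D.fn a.1).1 (pt D.Λ m x)) := by ring
        _ ≤ 1 + D.ε := h3
    have h6 : 0 ≤ D.Λ * (D.fn a.1).1 (pt D.Λ m x) :=
      mul_nonneg D.Λ_pos.le (D.fn_nonneg a.2.1 _)
    have h7 : (1 - D.ε) / κ * (D.Λ * (D.fn a.1).1 (pt D.Λ m x)) ≤ 1 + D.ε :=
      (mul_le_mul_of_nonneg_right hom h6).trans h5
    refine le_trans ?_ hκ'
    rw [← mul_div_assoc, le_div_iff₀ h1ε]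
    have h8 : (1 - D.ε) / κ * (D.Λ * (D.fn a.1).1 (pt D.Λ m x)) * κ ≤ (1 + D.ε) * κ := by
      gcongr
    have h9 : (1 - D.ε) / κ * (D.Λ * (D.fn a.1).1 (pt D.Λ m x)) * κ =
        D.Λ * (D.fn a.1).1 (pt D.Λ m x) * (1 - D.ε) := by
      field_simp
    rw [h9] at h8
    linarith
  · -- it is in another block
    push Not at hother
    obtain ⟨m', hm', j, s, hne⟩ := hother
    have h1 : 0 < (ww (some (m', j, s))).1 (D.ze k) := by
      rw [D.ww_ze]
      exact lt_of_le_of_ne (D.ze k _).2.1 (Ne.symm hne)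
    obtain ⟨j', s', h2⟩ := exists_of_ww_pos h1
    have h3 : st m (D.ze k) = base 1 := by
      apply st_trivial
      intro a b
      by_contra hne'
      have h4 : 0 < (yy (some (m, a, b))).1 (D.ze k) :=
        lt_of_le_of_ne (yy_nonneg _ _) (Ne.symm hne')
      refine yy_disj ?_ ?_ ?_ h2 h4
      · simpa [blk] using hm'
      · simp [blk]
      · simp [blk]
    rw [h3]
    exact h0

lemma val_base_one (m : ℕ) (γ : Ix) (hγ : γ ≠ none) : val m (base 1) γ = 0 := by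
  rcases γ with _ | ⟨m', j, s⟩
  · exact absurd rfl hγ
  · rw [val_some, base_one, ps_one, mul_zero, ite_self]

/-- **Claim C.** The base coordinate of the transferred point is large. -/
lemma om_large {κ : ℝ} (hκ : 0 < κ) (h0 : ∀ m, D.InS κ m (base 1)) :
    ∃ m₀, ∀ m ≥ m₀, ∀ x ∈ WW m, (∀ γ, val m x γ ≤ D.Λ) →
      (1 - D.ε) / κ ≤ D.om (D.kh κ hκ m x) (dl none) := by
  by_contra hcon
  push Not at hcon
  choose m hm x hx hb hlt using hcon
  have hb1 : ∀ γ, val 0 (base 1) γ ≤ D.Λ := fun γ =>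
    (val_base_le 0 norm_one γ).trans D.hΛ
  have hbm : (base 1 : ℕ → ℂ) ∈ WW 0 := base_mem 0 norm_one
  -- convergence of the points
  have hpt : Tendsto (fun n => pt D.Λ (m n) (x n)) atTop (𝓝 (pt D.Λ 0 (base 1))) := by
    rw [tendsto_pi_nhds]
    intro γ
    rw [tendsto_subtype_rng]
    refine tendsto_const_nhds.congr' ?_
    rcases γ with _ | ⟨m', j, s⟩
    · refine Eventually.of_forall fun n => ?_
      beta_reduce
      rw [pt_ap D.Λ_pos hbm hb1, pt_ap D.Λ_pos (hx n) (hb n), val_none, val_none]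
    · filter_upwards [eventually_gt_atTop m'] with n hn
      have h1 : m' ≠ m n := by
        have := hm n
        omega
      beta_reduce
      rw [pt_ap D.Λ_pos hbm hb1, pt_ap D.Λ_pos (hx n) (hb n), val_other h1,
        val_base_one 0 _ (by simp)]
  have hkh : Tendsto (fun n => D.kh κ hκ (m n) (x n)) atTop (𝓝 (D.kh κ hκ 0 (base 1))) := by
    rw [tendsto_pi_nhds]
    intro a
    rw [tendsto_subtype_rng]
    have h1 : Tendsto (fun n => (D.fn a.1).1 (pt D.Λ (m n) (x n))) atTop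
        (𝓝 ((D.fn a.1).1 (pt D.Λ 0 (base 1)))) := ((cont (D.fn a.1)).tendsto _).comp hpt
    exact ((tendsto_const_nhds.mul h1).div_const _).min tendsto_const_nhds
  have hom : Tendsto (fun n => D.om (D.kh κ hκ (m n) (x n)) (dl none)) atTop
      (𝓝 (D.om (D.kh κ hκ 0 (base 1)) (dl none))) := ((D.om_cont (dl none)).tendsto _).comp hkh
  rw [D.om_of_InS hκ hbm hb1 (h0 0), val_none] at hom
  have h1 : 1 / κ ≤ (1 - D.ε) / κ := le_of_tendsto' hom fun n => (hlt n).le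
  have h2 := D.hε0
  rw [div_le_div_iff_of_pos_right hκ] at h1
  linarith

end Dat

end Pool.Agent.X171.IP
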