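import Pool.Agent.X171.IP.Ret
import Pool.Agent.X171.SP.SubL
import Pool.Agent.X171.SP.Defs

/-! The range of the projection is isomorphically projective. -/

open Filter Topology

namespace Pool.Agent.X171.IP

open Pool.Agent.X171.BL (BanachLattice IsLatticeHom)
open Pool.Agent.X171.OC
open Pool.Agent.X171.SP (ClosedIdeal ClosedSublattice OnePlusProjective)

universe u v w

/-- Isomorphically projective Banach lattices. -/
def IsoProjective (A : Type u) [NormedAddCommGroup A] [Lattice A] [NormedSpace ℝ A] : Prop :=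
  ∃ lam : ℝ, 1 ≤ lam ∧
    ∀ (X : Type v) [NormedAddCommGroup X] [Lattice X] [NormedSpace ℝ X] [BanachLattice X]
      (J : ClosedIdeal X) (T : A →L[ℝ] J.Quo), IsLatticeHom T →
        ∃ S : A →L[ℝ] X, IsLatticeHom S ∧ (∀ a, J.proj (S a) = T a) ∧ ‖S‖ ≤ lam * ‖T‖

/-- the range of the projection, as a closed sublattice -/
noncomputable def PS : ClosedSublattice (P Ix) where
  carrier := {f | pj f = f}
  add_mem' := fun {f g} hf hg => by
    have hf' : pj f = f := hf
    have hg' : pj g = g := hg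
    show pj (f + g) = f + g
    rw [map_add, hf', hg']
  zero_mem' := map_zero pj
  smul_mem' := fun r f hf => by
    have hf' : pj f = f := hf
    show pj (r • f) = r • f
    rw [map_smul, hf']
  sup_mem' := fun f g hf hg => by
    have hf' : pj f = f := hf
    have hg' : pj g = g := hg
    show pj (f ⊔ g) = f ⊔ g
    rw [pj_hom.sup, hf', hg']
  closed' := isClosed_eq pj.continuous continuous_id

/-- the Banach lattice of the counterexample -/
abbrev PP : Type := PS.Ty

/-- the projection onto it -/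
noncomputable def pj' : P Ix →L[ℝ] PP :=
  LinearMap.mkContinuous
    { toFun := fun f => (⟨pj f, pj_pj f⟩ : PS.toSubmodule)
      map_add' := fun f g => Subtype.ext (map_add pj f g)
      map_smul' := fun r f => Subtype.ext (map_smul pj r f) } 4 fun f => by
        show ‖pj f‖ ≤ 4 * ‖f‖
        exact pj.le_of_opNorm_le norm_pj f

lemma incl_pj' (f : P Ix) : PS.incl (pj' f) = pj f := rfl

lemma pj_incl (x : PP) : pj (PS.incl x) = PS.incl x := x.2

lemma pj'_incl (x : PP) : pj' (PS.incl x) = x := PS.incl_inj (pj_incl x)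

lemma pj'_hom : IsLatticeHom pj' :=
  ⟨fun f g => PS.incl_inj (pj_hom.sup f g), fun f g => PS.incl_inj (pj_hom.inf f g)⟩

lemma norm_pj' : ‖pj'‖ ≤ 4 := LinearMap.mkContinuous_norm_le _ (by norm_num) _

lemma norm_incl_le : ‖PS.incl‖ ≤ 1 :=
  ContinuousLinearMap.opNorm_le_bound _ zero_le_one fun x => by
    rw [one_mul]
    exact (PS.norm_incl x).le

/-- The free Banach lattice over a set of positive generators is projective. -/
theorem free_projective (A : Type w) {X : Type v} [NormedAddCommGroup X] [Lattice X]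
    [NormedSpace ℝ X] [BanachLattice X] (J : ClosedIdeal X) (T : P A →L[ℝ] J.Quo)
    (hT : IsLatticeHom T) {ε : ℝ} (hε : 0 < ε) :
    ∃ S : P A →L[ℝ] X, IsLatticeHom S ∧ (∀ a, J.proj (S a) = T a) ∧ ‖S‖ ≤ (1 + ε) * ‖T‖ := by
  have hQ : Pool.Agent.X171.BL.IsQuotientMap J.proj := J.isQuotientMap_mk
  have hl : ∀ a : A, ∃ z, J.proj z = T (dl a) ∧ ‖z‖ ≤ (1 + ε) * ‖T‖ := by
    intro a
    have hT1 : ‖T (dl a)‖ ≤ ‖T‖ := by
      have h1 := T.le_opNorm (dl a)
      have h2 := mul_le_mul_of_nonneg_left (norm_dl_le a) (norm_nonneg T)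
      linarith
    rcases eq_or_lt_of_le (norm_nonneg (T (dl a))) with h | h
    · refine ⟨0, ?_, ?_⟩
      · rw [map_zero]
        exact (norm_eq_zero.1 h.symm).symm
      · rw [norm_zero]; positivity
    · obtain ⟨x, hx1, hx2⟩ := hQ.lift (T (dl a)) ((1 + ε) * ‖T (dl a)‖) (by nlinarith)
      refine ⟨x, hx1, hx2.le.trans ?_⟩
      gcongr
  choose z hz hzn using hl
  have hQu : ∀ a, J.proj |z a| = T (dl a) := by
    intro a
    rw [hQ.hom.abs, hz, abs_of_nonneg (hT.nonneg (dl_nonneg a))]
  obtain ⟨S, hS1, hS2, hS3⟩ := exists_hom (A := A) (u := fun a => |z a|)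
    (fun a => abs_nonneg _) (C := (1 + ε) * ‖T‖) (fun a => by rw [norm_abs_eq_norm]; exact hzn a)
    (by positivity)
  exact ⟨S, hS1, fun f => closure_compat hQ.hom hT hQu (hS2 f), hS3⟩

/-- `PP` is isomorphically projective. -/
theorem isoProjective_PP : IsoProjective.{0, v} PP := by
  refine ⟨8, by norm_num, ?_⟩
  intro X _ _ _ _ J T hT
  obtain ⟨S, hS1, hS2, hS3⟩ := free_projective Ix J (T.comp pj') (hT.comp pj'_hom) one_pos
  refine ⟨S.comp PS.incl, hS1.comp PS.incl_hom, fun a => ?_, ?_⟩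
  · show J.proj (S (PS.incl a)) = T a
    rw [hS2]
    show T (pj' (PS.incl a)) = T a
    rw [pj'_incl]
  · calc ‖S.comp PS.incl‖ ≤ ‖S‖ * ‖PS.incl‖ := ContinuousLinearMap.opNorm_comp_le _ _
      _ ≤ ((1 + 1) * ‖T.comp pj'‖) * 1 := by
        gcongr
        exact norm_incl_le
      _ ≤ ((1 + 1) * (‖T‖ * 4)) * 1 := by
        gcongr
        exact (ContinuousLinearMap.opNorm_comp_le _ _).trans
          (mul_le_mul_of_nonneg_left norm_pj' (norm_nonneg T))
      _ = 8 * ‖T‖ := by ring

end Pool.Agent.X171.IP
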