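import Pool.Agent.X171.IP.Pos

/-! Points of the cube which belong to states of the towers. -/

open Filter Topology

namespace Pool.Agent.X171.IP

open Pool.Agent.X171.BL (BanachLattice IsLatticeHom)
open Pool.Agent.X171.OC
open Pool.Agent.X171.SP (ClosedIdeal ClosedSublattice OnePlusProjective)

universe u v w

lemma homog' {A : Type w} (f : P A) {k l : K A} {c : ℝ} (hc : 0 ≤ c)
    (h : ∀ a, (k a : ℝ) = c * l a) : f.1 k = c * f.1 l := by
  have h1 : IsLatticeHom (c • evl l) := SP.smul_hom (evl_hom l) hc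
  have h2 : evl k = c • evl l := by
    apply hom_ext (evl_hom k) h1
    intro a
    exact h a
  exact congrArg (fun T : P A →L[ℝ] ℝ => T f) h2

/-- the coordinates of a state in block `m` -/
noncomputable def val (m : ℕ) (x : ℕ → ℂ) : Ix → ℝ
  | none => 1
  | some (m', j, s) => if m' = m then wt j s * ps s (x j) else 0

lemma val_some (m m' j : ℕ) (s : Fin 4) (x : ℕ → ℂ) :
    val m x (some (m', j, s)) = if m' = m then wt j s * ps s (x j) else 0 := rfl

lemma val_none (m : ℕ) (x : ℕ → ℂ) : val m x none = 1 := rfl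

lemma val_same (m j : ℕ) (s : Fin 4) (x : ℕ → ℂ) :
    val m x (some (m, j, s)) = wt j s * ps s (x j) := by
  simp [val]

lemma val_other {m m' : ℕ} (h : m' ≠ m) (j : ℕ) (s : Fin 4) (x : ℕ → ℂ) :
    val m x (some (m', j, s)) = 0 := by
  simp [val, h]

lemma val_nonneg {m : ℕ} {x : ℕ → ℂ} (hx : ∀ j, ‖x j‖ ≤ 1) (γ : Ix) : 0 ≤ val m x γ := by
  rcases γ with _ | ⟨m', j, s⟩
  · exact zero_le_one
  · rw [val_some]
    split_ifs
    · exact mul_nonneg (wt_pos _ _).le (ps_nonneg s (hx j))
    · exact le_rfl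

lemma val_cont (m : ℕ) (γ : Ix) : Continuous fun x : ℕ → ℂ => val m x γ := by
  rcases γ with _ | ⟨m', j, s⟩
  · exact continuous_const
  · simp only [val_some]
    split_ifs
    · exact continuous_const.mul ((ps_cont s).comp (continuous_apply j))
    · exact continuous_const

/-- the point of the cube belonging to a state, scaled by `1 / Λ` -/
noncomputable def pt (Λ : ℝ) (m : ℕ) (x : ℕ → ℂ) : K Ix := fun γ =>
  ⟨min (max (val m x γ / Λ) 0) 1, le_min (le_max_right _ _) zero_le_one, min_le_right _ _⟩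

lemma pt_cont (Λ : ℝ) (m : ℕ) : Continuous (pt Λ m) := by
  apply continuous_pi
  intro γ
  apply Continuous.subtype_mk
  exact (((val_cont m γ).div_const Λ).max continuous_const).min continuous_const

section
variable {Λ : ℝ} (hΛ : 0 < Λ) {m : ℕ} {x : ℕ → ℂ} (hx : x ∈ WW m)
  (hb : ∀ γ, val m x γ ≤ Λ)

include hΛ hx hb

lemma pt_ap (γ : Ix) : (pt Λ m x γ : ℝ) = val m x γ / Λ := by
  show min (max (val m x γ / Λ) 0) 1 = _
  have h0 := val_nonneg (m := m) (WW_norm m x hx) γ
  rw [max_eq_left (by positivity), min_eq_left]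
  rw [div_le_one hΛ]
  exact hb γ

lemma ev_pt {γ : Ix} (h : blk γ = some m) : ev (pt Λ m x) (cc γ) = 0 := by
  rw [ev_apply]
  have h2 : ∀ γ' : Ix, cc γ γ' * (pt Λ m x γ' : ℝ) = 0 := by
    intro γ'
    rw [cc_ap, pt_ap hΛ hx hb]
    by_cases h3 : blk γ' = none ∨ blk γ' = blk γ
    · unfold cf
      rw [if_pos h3, zero_mul]
    · rcases γ' with _ | ⟨m', j, s⟩
      · exact absurd (Or.inl rfl) h3
      · have h4 : m' ≠ m := by
          rintro rfl
          exact h3 (Or.inr (by rw [h]; rfl))
        rw [val_other h4, zero_div, mul_zero]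
  simp [h2]

lemma st_pt : st m (pt Λ m x) = x := by
  have hn := WW_norm m x hx
  have h1 : ∀ q, (tt m (pt Λ m x) q : ℝ) = ps q.2 (x q.1) := by
    intro q
    have hw := wt_pos q.1 q.2
    have hp0 := ps_nonneg q.2 (hn q.1)
    have hp1 := ps_le q.2 (hn q.1)
    rw [tt_ap, uu_ap, yy_ap, ev_pt hΛ hx hb rfl, sub_zero, pt_ap hΛ hx hb, pt_ap hΛ hx hb,
      val_same, val_none, max_eq_left (by positivity), min_eq_left]
    · field_simp
    · rw [mul_one_div]
      gcongr
      exact mul_le_of_le_one_right hw.le hp1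
  have h2 : zin (tt m (pt Λ m x)) = inp x := by
    funext j
    unfold zin inp
    rw [h1, h1, h1, h1]
    have e0 : ps 0 (x j) = (1 - (x j).re) / 2 := by simp [ps]
    have e1 : ps 1 (x j) = max (x j).im 0 / 2 := by simp [ps]
    have e2 : ps 2 (x j) = max (-(x j).im) 0 / 2 := by simp [ps]
    have e3 : ps 3 (x j) = max (1 - ‖x j‖) 0 := by simp [ps]
    simp only [e0, e1, e2, e3]
    have e4 : (⟨1 - 2 * ((1 - (x j).re) / 2), 2 * (max (x j).im 0 / 2) -
        2 * (max (-(x j).im) 0 / 2)⟩ : ℂ) = x j := by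
      apply Complex.ext
      · simp only
        ring
      · simp only
        rcases le_total 0 (x j).im with h | h
        · rw [max_eq_left h, max_eq_right (by linarith)]
          ring
        · rw [max_eq_right h, max_eq_left (by linarith)]
          ring
    rw [e4, cz_of_le (hn j), max_eq_left (by linarith [hn j])]
  show FF m (zin (tt m _)) = _
  rw [h2]
  exact FF_inp m _ hx

lemma st_pt_other {m' : ℕ} (h : m' ≠ m) : st m' (pt Λ m x) = base 1 := by
  apply st_trivial
  intro j s
  rw [yy_ap, pt_ap hΛ hx hb, val_other h, zero_div]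
  have h0 := ev_nonneg (c := cc (some (m', j, s))) (cc_nonneg _) (pt Λ m x)
  exact max_eq_right (by linarith)

lemma ww_pt (γ : Ix) : (ww γ).1 (pt Λ m x) = pt Λ m x γ := by
  rcases γ with _ | ⟨m', j, s⟩
  · rfl
  · rw [ww_some, pt_ap hΛ hx hb, pt_ap hΛ hx hb, val_none]
    by_cases h : m' = m
    · subst h
      rw [st_pt hΛ hx hb, val_same]
      ring
    · rw [st_pt_other hΛ hx hb h, base_one, ps_one, val_other h]
      simp

end

/-- the bound for base points -/
lemma val_base_le (m : ℕ) {z : ℂ} (hz : ‖z‖ = 1) (γ : Ix) : val m (base z) γ ≤ 1 := by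
  rcases γ with _ | ⟨m', j, s⟩
  · exact le_rfl
  · rw [val_some]
    split_ifs
    · have hn : ‖base z j‖ = 1 := by
        unfold base
        split_ifs
        · exact hz
        · exact norm_one
      by_cases hs : s = 3
      · subst hs
        have : ps 3 (base z j) = 0 := by simp [ps, hn]
        rw [this, mul_zero]
        exact zero_le_one
      · have hw : wt j s = 1 := by simp [wt, hs]
        rw [hw, one_mul]
        exact ps_le s hn.le
    · exact zero_le_one

/-! ### Contractions of the circles -/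

/-- the input of the disk -/
noncomputable def din (y : ℂ) : ℕ → ℂ × ℝ := fun k => if k = 0 then (y, 0) else (1, 0)

lemma din_mem {y : ℂ} (hy : ‖y‖ ≤ 1) : din y ∈ VV := by
  intro k
  unfold din
  split_ifs
  · exact ⟨hy, le_rfl⟩
  · exact ⟨norm_one.le, le_rfl⟩

lemma din_cont : Continuous din := by
  apply continuous_pi
  intro k
  unfold din
  split_ifs <;> fun_prop

/-- the disk which fills the circle `j` -/
noncomputable def disk (m j : ℕ) (y : ℂ) : ℕ → ℂ := pad j (FF (m - j) (din y))

lemma disk_mem {m j : ℕ} (hj : j ≤ m) {y : ℂ} (hy : ‖y‖ ≤ 1) : disk m j y ∈ WW m := by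
  have := pad_mem (m - j) j (FF_mem (m - j) _ (din_mem hy))
  rwa [Nat.sub_add_cancel hj] at this

lemma disk_cont (m j : ℕ) : Continuous (disk m j) := by
  apply continuous_pi
  intro k
  unfold disk pad
  split_ifs
  · exact continuous_const
  · exact (continuous_apply _).comp ((FF_cont _).comp din_cont)

lemma disk_circle (m j : ℕ) {y : ℂ} (hy : ‖y‖ = 1) : disk m j y = pad j (base y) := by
  unfold disk
  rw [FF_of_norm (m - j) (din y)]
  · rfl
  · show 1 ≤ ‖(din y 0).1‖
    have : (din y 0).1 = y := rfl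
    rw [this, hy]

lemma disk_val {m j : ℕ} {y : ℂ} (hy : ‖y‖ ≤ 1) (γ : Ix) :
    val m (disk m j y) γ ≤ 2 ^ j := by
  have h1 : (1 : ℝ) ≤ 2 ^ j := one_le_pow₀ one_le_two
  have hFn : ∀ i, ‖FF (m - j) (din y) i‖ ≤ 1 :=
    WW_norm (m - j) _ (FF_mem (m - j) _ (din_mem hy))
  have hn : ∀ i, ‖disk m j y i‖ ≤ 1 := by
    intro i
    unfold disk pad
    split_ifs
    · simp
    · exact hFn _
  rcases γ with _ | ⟨m', i, s⟩
  · exact h1
  · rw [val_some]
    split_ifs
    · by_cases hs : s = 3
      · subst hs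
        have hps : ps 3 (disk m j y i) = max (1 - ‖disk m j y i‖) 0 := by simp [ps]
        by_cases hi : i ≤ j
        · have hw : wt i 3 = 2 ^ i := by simp [wt]
          rw [hw]
          have h2 : (2 : ℝ) ^ i ≤ 2 ^ j := pow_le_pow_right₀ one_le_two hi
          calc (2 : ℝ) ^ i * ps 3 (disk m j y i) ≤ 2 ^ i * 1 := by
                gcongr
                exact ps_le 3 (hn i)
            _ ≤ 2 ^ j := by rw [mul_one]; exact h2
        · have h2 : disk m j y i = FF (m - j) (din y) ((i - j - 1) + 1) := by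
            unfold disk pad
            rw [if_neg (by omega)]
            congr 1
            omega
          have h3 := FF_depth (m - j) (din y) (din_mem hy) (i - j - 1)
          have h4 : (din y (i - j - 1)).2 = 0 := by
            unfold din
            split_ifs <;> rfl
          rw [h4, mul_zero, ← h2] at h3
          rw [hps, max_eq_right h3, mul_zero]
          linarith
      · have hw : wt i s = 1 := by simp [wt, hs]
        rw [hw, one_mul]
        exact (ps_le s (hn i)).trans h1
    · linarith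

lemma exists_ee {ζ : ℂ} (hζ : ‖ζ‖ = 1) : ∃ t : ℝ, 0 ≤ t ∧ t ≤ 1 ∧ ee t = ζ := by
  have h1 : Complex.exp (Complex.arg ζ * Complex.I) = ζ := by
    have := Complex.norm_mul_exp_arg_mul_I ζ
    rwa [hζ, Complex.ofReal_one, one_mul] at this
  have hpi := Real.pi_pos
  have hle := Complex.arg_le_pi ζ
  have hlt := Complex.neg_pi_lt_arg ζ
  by_cases h : 0 ≤ Complex.arg ζ
  · refine ⟨Complex.arg ζ / (2 * Real.pi), by positivity, ?_, ?_⟩
    · rw [div_le_one (by positivity)]
      linarith
    · unfold ee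
      rw [mul_div_cancel₀ _ (by positivity)]
      exact h1
  · push Not at h
    refine ⟨Complex.arg ζ / (2 * Real.pi) + 1, ?_, ?_, ?_⟩
    · have : -1 ≤ Complex.arg ζ / (2 * Real.pi) := by
        rw [le_div_iff₀ (by positivity)]
        linarith
      linarith
    · have : Complex.arg ζ / (2 * Real.pi) ≤ 0 := div_nonpos_of_nonpos_of_nonneg h.le (by positivity)
      linarith
    · unfold ee
      have h2 : 2 * Real.pi * (Complex.arg ζ / (2 * Real.pi) + 1) = Complex.arg ζ + 2 * Real.pi := by
        field_simp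
      rw [h2]
      push_cast
      rw [add_mul, Complex.exp_add, h1, Complex.exp_two_pi_mul_I, mul_one]

/-- directions with a given image -/
lemma exists_dir {ζ : ℂ} (hζ : ‖ζ‖ = 1) : ∃ v : ℂ, ‖v‖ = 1 ∧ ee ((1 - v.re) / 2) = ζ := by
  obtain ⟨t, h0, h1, ht⟩ := exists_ee hζ
  have h2 : 0 ≤ 1 - (1 - 2 * t) ^ 2 := by nlinarith
  refine ⟨⟨1 - 2 * t, Real.sqrt (1 - (1 - 2 * t) ^ 2)⟩, ?_, ?_⟩
  · rw [Complex.norm_def, Complex.normSq_mk, Real.mul_self_sqrt h2]
    rw [show (1 - 2 * t) * (1 - 2 * t) + (1 - (1 - 2 * t) ^ 2) = 1 by ring, Real.sqrt_one]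
  · have : (1 - (1 - 2 * t)) / 2 = t := by ring
    rw [this, ht]

end Pool.Agent.X171.IP
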