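import Pool.Agent.X171.IP.TowerProp
import Pool.Agent.X171.OC.Geo

/-! The retraction. -/

open Filter Topology

namespace Pool.Agent.X171.IP

open Pool.Agent.X171.BL (BanachLattice IsLatticeHom)
open Pool.Agent.X171.OC

/-- the index set of the generators -/
abbrev Ix : Type := Option (ℕ × ℕ × Fin 4)

/-- the weights -/
noncomputable def wt (j : ℕ) (s : Fin 4) : ℝ := if s = 3 then 2 ^ j else 1

lemma wt_pos (j : ℕ) (s : Fin 4) : 0 < wt j s := by
  unfold wt
  split_ifs <;> positivity

/-- the block of an index -/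
def blk : Ix → Option ℕ
  | none => none
  | some (m, _, _) => some m

/-- the coefficients used to make the blocks disjoint -/
noncomputable def cf (γ γ' : Ix) : ℝ :=
  if blk γ' = none ∨ blk γ' = blk γ then 0 else
    4 ^ Encodable.encode γ * (1 / 2) ^ Encodable.encode γ'

lemma cf_nonneg (γ γ' : Ix) : 0 ≤ cf γ γ' := by
  unfold cf
  split_ifs
  · exact le_rfl
  · positivity

lemma cf_summable (γ : Ix) : Summable (cf γ) := by
  have h1 : Summable fun γ' : Ix => (4 : ℝ) ^ Encodable.encode γ * (1 / 2) ^ Encodable.encode γ' :=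
    (summable_geometric_two.comp_injective Encodable.encode_injective).mul_left _
  refine h1.of_nonneg_of_le (cf_nonneg γ) fun γ' => ?_
  unfold cf
  split_ifs
  · positivity
  · exact le_rfl

/-- the coefficients as an element of `ℓ₁` -/
noncomputable def cc (γ : Ix) : L1 Ix := ⟨cf γ, by
  refine memℓp_gen ?_
  simp only [ENNReal.toReal_one, Real.rpow_one]
  exact (cf_summable γ).norm⟩

lemma cc_ap (γ γ' : Ix) : cc γ γ' = cf γ γ' := rfl

lemma cc_nonneg (γ : Ix) : ∀ a, 0 ≤ (cc γ : L1 Ix) a := fun a => cf_nonneg γ a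

lemma single_le_ev {A : Type*} {c : L1 A} (hc : ∀ a, 0 ≤ c a) (k : K A) (a : A) :
    c a * (k a : ℝ) ≤ ev k c := by
  rw [ev_apply]
  have := (summable_term c k).sum_le_tsum {a} fun b _ => mul_nonneg (hc b) (k b).2.1
  simpa using this

/-- the disjointified generators -/
noncomputable def yy (γ : Ix) : P Ix :=
  (dl γ - ⟨fun k => ev k (cc γ), ev_mem (c := cc γ) (cc_nonneg γ)⟩) ⊔ 0

lemma yy_ap (γ : Ix) (k : K Ix) : (yy γ).1 k = max ((k γ : ℝ) - ev k (cc γ)) 0 := rfl

lemma yy_nonneg (γ : Ix) : 0 ≤ yy γ := le_sup_right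

lemma yy_le (γ : Ix) (k : K Ix) : (yy γ).1 k ≤ k γ := by
  rw [yy_ap]
  exact max_le (sub_le_self _ (ev_nonneg (c := cc γ) (cc_nonneg γ) k)) (k γ).2.1

lemma yy_disj {γ γ' : Ix} (h : blk γ ≠ blk γ') (h1 : blk γ ≠ none) (h2 : blk γ' ≠ none)
    {k : K Ix} (hk : 0 < (yy γ).1 k) (hk' : 0 < (yy γ').1 k) : False := by
  rw [yy_ap] at hk hk'
  have a1 : ev k (cc γ) < k γ := by
    rcases lt_max_iff.1 hk with h | h
    · linarith
    · exact absurd h (lt_irrefl _)
  have a2 : ev k (cc γ') < k γ' := by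
    rcases lt_max_iff.1 hk' with h | h
    · linarith
    · exact absurd h (lt_irrefl _)
  have b1 := single_le_ev (c := cc γ) (cc_nonneg γ) k γ'
  have b2 := single_le_ev (c := cc γ') (cc_nonneg γ') k γ
  rw [cc_ap] at b1 b2
  have e1 : cf γ γ' = 4 ^ Encodable.encode γ * (1 / 2) ^ Encodable.encode γ' := by
    unfold cf
    rw [if_neg]
    rintro (h' | h')
    · exact h2 h'
    · exact h h'.symm
  have e2 : cf γ' γ = 4 ^ Encodable.encode γ' * (1 / 2) ^ Encodable.encode γ := by
    unfold cf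
    rw [if_neg]
    rintro (h' | h')
    · exact h1 h'
    · exact h h'
  have e3 : 1 ≤ cf γ γ' * cf γ' γ := by
    rw [e1, e2]
    have h3 : (4 : ℝ) ^ Encodable.encode γ * (1 / 2) ^ Encodable.encode γ' *
        (4 ^ Encodable.encode γ' * (1 / 2) ^ Encodable.encode γ) =
        2 ^ Encodable.encode γ * 2 ^ Encodable.encode γ' := by
      have : ∀ n : ℕ, (4 : ℝ) ^ n * (1 / 2) ^ n = 2 ^ n := by
        intro n
        rw [← mul_pow]
        norm_num
      rw [← this (Encodable.encode γ), ← this (Encodable.encode γ')]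
      ring
    rw [h3]
    exact one_le_mul_of_one_le_of_one_le (one_le_pow₀ one_le_two) (one_le_pow₀ one_le_two)
  have p1 : 0 ≤ cf γ γ' := cf_nonneg _ _
  have p2 : 0 ≤ cf γ' γ := cf_nonneg _ _
  have q1 : (0 : ℝ) ≤ k γ := (k γ).2.1
  have c1 : cf γ γ' * (cf γ' γ * k γ) ≤ cf γ γ' * k γ' :=
    mul_le_mul_of_nonneg_left (b2.trans a2.le) p1
  have c2 : (k γ : ℝ) ≤ cf γ γ' * (cf γ' γ * k γ) := by
    rw [← mul_assoc]
    exact le_mul_of_one_le_left q1 e3
  linarith

/-- the normalised, truncated generators of a block -/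
noncomputable def uu (m : ℕ) (q : ℕ × Fin 4) : P Ix :=
  (wt q.1 q.2)⁻¹ • (yy (some (m, q.1, q.2)) ⊓ (wt q.1 q.2) • dl none)

lemma uu_ap (m : ℕ) (q : ℕ × Fin 4) (k : K Ix) : (uu m q).1 k =
    (wt q.1 q.2)⁻¹ * min ((yy (some (m, q.1, q.2))).1 k) (wt q.1 q.2 * k none) := rfl

lemma uu_nonneg (m : ℕ) (q : ℕ × Fin 4) : 0 ≤ uu m q :=
  smul_nonneg (inv_pos.2 (wt_pos _ _)).le
    (le_inf (yy_nonneg _) (smul_nonneg (wt_pos _ _).le (dl_nonneg _)))

lemma uu_le (m : ℕ) (q : ℕ × Fin 4) : uu m q ≤ dl none := by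
  have h := smul_le_smul_of_nonneg_left (inf_le_right :
    yy (some (m, q.1, q.2)) ⊓ (wt q.1 q.2) • dl none ≤ _) (inv_pos.2 (wt_pos q.1 q.2)).le
  rwa [smul_smul, inv_mul_cancel₀ (wt_pos _ _).ne', one_smul] at h

/-- evaluation on `C([0,1]^Γ)` -/
noncomputable def evK {Γ : Type} (k : BL.K Γ) : C(BL.K Γ, ℝ) →L[ℝ] ℝ :=
  LinearMap.mkContinuous
    { toFun := fun f => f k
      map_add' := fun _ _ => rfl
      map_smul' := fun _ _ => rfl } 1 fun f => by
        rw [one_mul]
        exact f.norm_coe_le_norm k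

lemma evK_hom {Γ : Type} (k : BL.K Γ) : IsLatticeHom (evK k) := ⟨fun _ _ => rfl, fun _ _ => rfl⟩

lemma exists_SS (m : ℕ) : ∃ S : C(BL.K (ℕ × Fin 4), ℝ) →L[ℝ] P Ix, IsLatticeHom S ∧
    S 1 = dl none ∧ ∀ q, S (BL.pr q) = uu m q :=
  BL.exists_hom' (fun q => ⟨uu_nonneg m q, uu_le m q⟩) (dl_nonneg _)

/-- the functional calculus of a block -/
noncomputable def SS (m : ℕ) : C(BL.K (ℕ × Fin 4), ℝ) →L[ℝ] P Ix := (exists_SS m).choose

lemma SS_hom (m : ℕ) : IsLatticeHom (SS m) := (exists_SS m).choose_spec.1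
lemma SS_one (m : ℕ) : SS m 1 = dl none := (exists_SS m).choose_spec.2.1
lemma SS_pr (m : ℕ) (q : ℕ × Fin 4) : SS m (BL.pr q) = uu m q := (exists_SS m).choose_spec.2.2 q

/-- the normalised coordinates of a block -/
noncomputable def tt (m : ℕ) (k : K Ix) : BL.K (ℕ × Fin 4) := fun q =>
  ⟨(uu m q).1 k / k none, div_nonneg (uu_nonneg m q k) (k none).2.1,
    div_le_one_of_le₀ (uu_le m q k) (k none).2.1⟩

lemma tt_ap (m : ℕ) (k : K Ix) (q : ℕ × Fin 4) : (tt m k q : ℝ) = (uu m q).1 k / k none := rfl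

lemma SS_ap (m : ℕ) (f : C(BL.K (ℕ × Fin 4), ℝ)) (k : K Ix) :
    (SS m f).1 k = k none * f (tt m k) := by
  have h1 : IsLatticeHom ((evl k).comp (SS m)) := (evl_hom k).comp (SS_hom m)
  have h2 : IsLatticeHom (((k none : ℝ)) • evK (tt m k)) :=
    SP.smul_hom (evK_hom _) (k none).2.1
  refine BL.hom_ext h1 h2 ?_ (fun q => ?_) f
  · show (SS m 1).1 k = (k none : ℝ) * (1 : ℝ)
    rw [SS_one, mul_one]
    rfl
  · show (SS m (BL.pr q)).1 k = (k none : ℝ) * (tt m k q : ℝ)
    rw [SS_pr, tt_ap]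
    by_cases h0 : (k none : ℝ) = 0
    · have h3 : (uu m q).1 k ≤ k none := uu_le m q k
      have h4 : 0 ≤ (uu m q).1 k := uu_nonneg m q k
      rw [h0, zero_mul]
      rw [h0] at h3
      exact le_antisymm h3 h4
    · field_simp

/-! ### The input and the output of the tower map -/

/-- clipping to the unit disk -/
noncomputable def cz (z : ℂ) : ℂ := z / ((max 1 ‖z‖ : ℝ) : ℂ)

lemma norm_cz (z : ℂ) : ‖cz z‖ ≤ 1 := by
  unfold cz
  rw [norm_div, Complex.norm_real, Real.norm_of_nonneg (le_max_of_le_left zero_le_one)]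
  exact div_le_one_of_le₀ (le_max_right _ _) (le_max_of_le_left zero_le_one)

lemma cz_of_le {z : ℂ} (h : ‖z‖ ≤ 1) : cz z = z := by
  unfold cz
  rw [max_eq_left h]
  simp

lemma cz_cont : Continuous cz := by
  unfold cz
  refine continuous_id.div ?_ fun z => ?_
  · fun_prop
  · have : (0 : ℝ) < max 1 ‖z‖ := lt_max_of_lt_left one_pos
    exact_mod_cast this.ne'

/-- the input -/
noncomputable def zin (t : BL.K (ℕ × Fin 4)) : ℕ → ℂ × ℝ := fun j =>
  (cz ⟨1 - 2 * (t (j, 0) : ℝ), 2 * (t (j, 1) : ℝ) - 2 * (t (j, 2) : ℝ)⟩, (t (j, 3) : ℝ))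

lemma zin_mem (t : BL.K (ℕ × Fin 4)) : zin t ∈ VV := fun j => ⟨norm_cz _, (t (j, 3)).2.1⟩

lemma zin_cont : Continuous zin := by
  apply continuous_pi
  intro j
  have h : ∀ s : Fin 4, Continuous fun t : BL.K (ℕ × Fin 4) => (t (j, s) : ℝ) := fun s =>
    continuous_subtype_val.comp (continuous_apply (j, s))
  refine (cz_cont.comp ?_).prodMk (h 3)
  have h2 : (fun t : BL.K (ℕ × Fin 4) => (⟨1 - 2 * (t (j, 0) : ℝ),
      2 * (t (j, 1) : ℝ) - 2 * (t (j, 2) : ℝ)⟩ : ℂ)) = fun t =>
      ((1 - 2 * (t (j, 0) : ℝ) : ℝ) : ℂ) +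
        ((2 * (t (j, 1) : ℝ) - 2 * (t (j, 2) : ℝ) : ℝ) : ℂ) * Complex.I := by
    funext t
    apply Complex.ext <;> simp
  rw [h2]
  have h0 := h 0
  have h1 := h 1
  have h3 := h 2
  exact (Complex.continuous_ofReal.comp (continuous_const.sub (continuous_const.mul h0))).add
    ((Complex.continuous_ofReal.comp ((continuous_const.mul h1).sub
      (continuous_const.mul h3))).mul continuous_const)

/-- the output -/
noncomputable def ps (s : Fin 4) (z : ℂ) : ℝ :=
  if s = 0 then (1 - z.re) / 2 else if s = 1 then max z.im 0 / 2 else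
    if s = 2 then max (-z.im) 0 / 2 else max (1 - ‖z‖) 0

lemma ps_cont (s : Fin 4) : Continuous (ps s) := by
  unfold ps
  split_ifs <;> fun_prop

lemma ps_nonneg (s : Fin 4) {z : ℂ} (h : ‖z‖ ≤ 1) : 0 ≤ ps s z := by
  have h1 := (abs_le.1 ((Complex.abs_re_le_norm z).trans h)).2
  unfold ps
  split_ifs
  · linarith
  · positivity
  · positivity
  · positivity

lemma ps_le (s : Fin 4) {z : ℂ} (h : ‖z‖ ≤ 1) : ps s z ≤ 1 := by
  have h1 := (abs_le.1 ((Complex.abs_re_le_norm z).trans h)).1
  have h2 := abs_le.1 ((Complex.abs_im_le_norm z).trans h)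
  unfold ps
  split_ifs
  · linarith
  · rw [div_le_one two_pos]
    exact max_le (by linarith) (by norm_num)
  · rw [div_le_one two_pos]
    exact max_le (by linarith) (by norm_num)
  · exact max_le (by linarith [norm_nonneg z]) zero_le_one

lemma ps_one (s : Fin 4) : ps s 1 = 0 := by
  unfold ps
  split_ifs <;> simp

/-- the state of a block -/
noncomputable def st (m : ℕ) (k : K Ix) : ℕ → ℂ := FF m (zin (tt m k))

lemma WW_norm (n : ℕ) : ∀ x ∈ WW n, ∀ j, ‖x j‖ ≤ 1 := by
  induction n with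
  | zero =>
    intro x hx j
    cases j with
    | zero => exact hx.1
    | succ j => rw [hx.2 j, norm_one]
  | succ n ih =>
    intro x hx j
    cases j with
    | zero => exact hx.1
    | succ j => exact ih _ hx.2.1 j

lemma st_mem (m : ℕ) (k : K Ix) : st m k ∈ WW m := FF_mem m _ (zin_mem _)

lemma st_norm (m : ℕ) (k : K Ix) (j : ℕ) : ‖st m k j‖ ≤ 1 := WW_norm m _ (st_mem m k) j

/-- the output functions -/
noncomputable def Psi (m j : ℕ) (s : Fin 4) : C(BL.K (ℕ × Fin 4), ℝ) :=
  ⟨fun t => ps s (FF m (zin t) j),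
    (ps_cont s).comp ((continuous_apply j).comp ((FF_cont m).comp zin_cont))⟩

/-- the images of the generators -/
noncomputable def ww : Ix → P Ix
  | none => dl none
  | some (m, j, s) => wt j s • SS m (Psi m j s)

lemma ww_none (k : K Ix) : (ww none).1 k = k none := rfl

lemma ww_some (m j : ℕ) (s : Fin 4) (k : K Ix) :
    (ww (some (m, j, s))).1 k = wt j s * (k none * ps s (st m k j)) := by
  show wt j s * (SS m (Psi m j s)).1 k = _
  rw [SS_ap]
  rfl

lemma ww_nonneg (γ : Ix) : 0 ≤ ww γ := by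
  intro k
  rcases γ with _ | ⟨m, j, s⟩
  · exact (k none).2.1
  · rw [ww_some]
    exact mul_nonneg (wt_pos _ _).le (mul_nonneg (k none).2.1 (ps_nonneg s (st_norm m k j)))

lemma norm_ww (γ : Ix) : ‖ww γ‖ ≤ 4 := by
  have hdl : ∀ γ : Ix, ‖dl γ‖ ≤ 1 := norm_dl_le
  have h1 : ∀ m j s, wt j s = 1 → ‖ww (some (m, j, s))‖ ≤ 4 := by
    intro m j s hw
    have h2 : ww (some (m, j, s)) ≤ dl none := by
      intro k
      rw [ww_some, hw, one_mul]
      exact mul_le_of_le_one_right (k none).2.1 (ps_le s (st_norm m k j))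
    have h3 := BL.norm_le_of_le (ww_nonneg _) h2
    linarith [hdl none]
  rcases γ with _ | ⟨m, j, s⟩
  · have : ww none = dl none := rfl
    rw [this]
    linarith [hdl none]
  · by_cases hs : s = 3
    · cases j with
      | zero => exact h1 m 0 s (by simp [wt])
      | succ j =>
        subst hs
        have h2 : ww (some (m, j + 1, 3)) ≤ (4 : ℝ) • dl (some (m, j, 3)) := by
          intro k
          rw [ww_some]
          show _ ≤ 4 * (k (some (m, j, 3)) : ℝ)
          have hk0 : (0 : ℝ) ≤ k none := (k none).2.1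
          rcases eq_or_lt_of_le hk0 with h0 | h0
          · rw [← h0, zero_mul, mul_zero]
            exact mul_nonneg (by norm_num) (k _).2.1
          · have h3 : ps 3 (st m k (j + 1)) ≤ 2 * (tt m k (j, 3) : ℝ) := by
              have h4 : ps 3 (st m k (j + 1)) = max (1 - ‖st m k (j + 1)‖) 0 := by
                unfold ps
                simp
              rw [h4]
              refine max_le (FF_depth m _ (zin_mem _) j) ?_
              exact mul_nonneg zero_le_two (tt m k (j, 3)).2.1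
            have h5 : (wt j 3) * (k none * (tt m k (j, 3) : ℝ)) ≤ k (some (m, j, 3)) := by
              rw [tt_ap, uu_ap]
              have h6 : (wt j 3) * ((k none : ℝ) * ((wt j 3)⁻¹ *
                  min ((yy (some (m, j, 3))).1 k) (wt j 3 * k none) / k none)) =
                  min ((yy (some (m, j, 3))).1 k) (wt j 3 * k none) := by
                have := (wt_pos j 3).ne'
                field_simp
              refine (h6.le.trans (min_le_left _ _)).trans (yy_le _ _)
            have h7 : wt (j + 1) 3 = 2 * wt j 3 := by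
              simp [wt, pow_succ]
              ring
            rw [h7]
            have h8 := wt_pos j 3
            calc 2 * wt j 3 * (k none * ps 3 (st m k (j + 1)))
                ≤ 2 * wt j 3 * (k none * (2 * (tt m k (j, 3) : ℝ))) := by gcongr
              _ = 4 * ((wt j 3) * (k none * (tt m k (j, 3) : ℝ))) := by ring
              _ ≤ 4 * (k (some (m, j, 3)) : ℝ) := by gcongr
        have h3 := BL.norm_le_of_le (ww_nonneg _) h2
        rw [norm_smul, Real.norm_of_nonneg (by norm_num : (0 : ℝ) ≤ 4)] at h3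
        linarith [hdl (some (m, j, 3))]
    · exact h1 m j s (by simp [wt, hs])

/-! ### The projection -/

lemma exists_pj : ∃ S : P Ix →L[ℝ] P Ix, IsLatticeHom S ∧ (∀ γ, S (dl γ) = ww γ) ∧ ‖S‖ ≤ 4 := by
  obtain ⟨S, h1, h2, h3⟩ := exists_hom (A := Ix) (u := ww) ww_nonneg (C := 4) norm_ww (by norm_num)
  exact ⟨S, h1, fun γ => Gp_unique ww_nonneg (C := 4) norm_ww (by norm_num) (h2 _)
    (subset_closure (Gen.pi γ)), h3⟩

/-- the projection -/
noncomputable def pj : P Ix →L[ℝ] P Ix := exists_pj.choose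

lemma pj_hom : IsLatticeHom pj := exists_pj.choose_spec.1
lemma pj_dl (γ : Ix) : pj (dl γ) = ww γ := exists_pj.choose_spec.2.1 γ
lemma norm_pj : ‖pj‖ ≤ 4 := exists_pj.choose_spec.2.2

/-- the retraction of the cube -/
noncomputable def rho (k : K Ix) : K Ix := fun γ => ⟨(ww γ).1 k / 4,
  div_nonneg (ww_nonneg γ k) (by norm_num), by
    rw [div_le_one (by norm_num)]
    have h1 := le_nrm (ww γ) k
    rw [← norm_def] at h1
    exact (le_abs_self _).trans (h1.trans (norm_ww γ))⟩

lemma rho_ap (k : K Ix) (γ : Ix) : (rho k γ : ℝ) = (ww γ).1 k / 4 := rfl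

lemma pj_ap (f : P Ix) (k : K Ix) : (pj f).1 k = 4 * f.1 (rho k) := by
  have h1 : IsLatticeHom ((evl k).comp pj) := (evl_hom k).comp pj_hom
  have h2 : IsLatticeHom ((4 : ℝ) • evl (rho k)) := SP.smul_hom (evl_hom _) (by norm_num)
  have h3 : (evl k).comp pj = (4 : ℝ) • evl (rho k) := by
    apply hom_ext h1 h2
    intro γ
    show (pj (dl γ)).1 k = 4 * (rho k γ : ℝ)
    rw [pj_dl, rho_ap]
    ring
  exact congrArg (fun T : P Ix →L[ℝ] ℝ => T f) h3

/-- a block without active generators is at its base point -/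
lemma st_trivial {m : ℕ} {k : K Ix} (h : ∀ j s, (yy (some (m, j, s))).1 k = 0) :
    st m k = base 1 := by
  have h1 : ∀ q, (tt m k q : ℝ) = 0 := by
    intro q
    rw [tt_ap, uu_ap, h q.1 q.2, min_eq_left, mul_zero, zero_div]
    exact mul_nonneg (wt_pos _ _).le (k none).2.1
  have h2 : (zin (tt m k) 0).1 = 1 := by
    unfold zin
    simp only [h1]
    have : (⟨1 - 2 * 0, 2 * 0 - 2 * 0⟩ : ℂ) = 1 := by
      apply Complex.ext <;> simp
    rw [this, cz_of_le (by simp)]
  unfold st
  rw [FF_of_norm m _ (by rw [h2]; simp), h2]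

lemma base_one (j : ℕ) : base 1 j = 1 := by
  unfold base
  split_ifs <;> rfl

lemma exists_of_ww_pos {m j : ℕ} {s : Fin 4} {k : K Ix} (h : 0 < (ww (some (m, j, s))).1 k) :
    ∃ j' s', 0 < (yy (some (m, j', s'))).1 k := by
  by_contra hcon
  push Not at hcon
  have h1 : st m k = base 1 := st_trivial fun j s =>
    le_antisymm (hcon j s) (yy_nonneg _ k)
  rw [ww_some, h1, base_one, ps_one, mul_zero, mul_zero] at h
  exact lt_irrefl _ h

lemma yy_rho (m j : ℕ) (s : Fin 4) (k : K Ix) :
    (yy (some (m, j, s))).1 (rho k) = rho k (some (m, j, s)) := by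
  rw [yy_ap]
  have h0 : (0 : ℝ) ≤ rho k (some (m, j, s)) := (rho k _).2.1
  rcases eq_or_lt_of_le h0 with h | h
  · rw [← h]
    exact max_eq_right (by linarith [ev_nonneg (c := cc (some (m, j, s))) (cc_nonneg _) (rho k)])
  · have h1 : ev (rho k) (cc (some (m, j, s))) = 0 := by
      rw [ev_apply]
      have h2 : ∀ γ' : Ix, cc (some (m, j, s)) γ' * (rho k γ' : ℝ) = 0 := by
        intro γ'
        rw [cc_ap]
        by_cases hb : blk γ' = none ∨ blk γ' = blk (some (m, j, s))
        · unfold cf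
          rw [if_pos hb, zero_mul]
        · have h3 : (rho k γ' : ℝ) = 0 := by
            by_contra hne
            have h4 : (0 : ℝ) < rho k γ' := lt_of_le_of_ne (rho k γ').2.1 (Ne.symm hne)
            rw [rho_ap] at h h4
            have h5 : 0 < (ww (some (m, j, s))).1 k := by linarith
            have h6 : 0 < (ww γ').1 k := by linarith
            rcases γ' with _ | ⟨m', j', s'⟩
            · exact hb (Or.inl rfl)
            · obtain ⟨a, b, hab⟩ := exists_of_ww_pos h5
              obtain ⟨a', b', hab'⟩ := exists_of_ww_pos h6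
              refine yy_disj ?_ ?_ ?_ hab hab'
              · intro h7
                exact hb (Or.inr h7.symm)
              · simp [blk]
              · simp [blk]
          rw [h3, mul_zero]
      simp [h2]
    rw [h1, sub_zero, max_eq_left h.le]

/-- the retraction acts on the states -/
lemma st_rho (m : ℕ) (k : K Ix) (hk : 0 < (k none : ℝ)) : st m (rho k) = st m k := by
  have h0 : (rho k none : ℝ) = k none / 4 := rfl
  have h1 : ∀ q, (tt m (rho k) q : ℝ) = ps q.2 (st m k q.1) := by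
    intro q
    have hp0 := ps_nonneg q.2 (st_norm m k q.1)
    have hp1 := ps_le q.2 (st_norm m k q.1)
    have hw := wt_pos q.1 q.2
    rw [tt_ap, uu_ap, yy_rho, h0, rho_ap, ww_some, min_eq_left]
    · field_simp
    · have : wt q.1 q.2 * (k none * ps q.2 (st m k q.1)) ≤ wt q.1 q.2 * (k none * 1) := by gcongr
      linarith
  have h2 : zin (tt m (rho k)) = inp (st m k) := by
    funext j
    unfold zin inp
    rw [h1, h1, h1, h1]
    have e0 : ps 0 (st m k j) = (1 - (st m k j).re) / 2 := by simp [ps]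
    have e1 : ps 1 (st m k j) = max (st m k j).im 0 / 2 := by simp [ps]
    have e2 : ps 2 (st m k j) = max (-(st m k j).im) 0 / 2 := by simp [ps]
    have e3 : ps 3 (st m k j) = max (1 - ‖st m k j‖) 0 := by simp [ps]
    simp only [e0, e1, e2, e3]
    have e4 : (⟨1 - 2 * ((1 - (st m k j).re) / 2), 2 * (max (st m k j).im 0 / 2) -
        2 * (max (-(st m k j).im) 0 / 2)⟩ : ℂ) = st m k j := by
      apply Complex.ext
      · simp only
        ring
      · simp only
        rcases le_total 0 (st m k j).im with h | h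
        · rw [max_eq_left h, max_eq_right (by linarith)]
          ring
        · rw [max_eq_right h, max_eq_left (by linarith)]
          ring
    rw [e4, cz_of_le (st_norm m k j), max_eq_left (by linarith [st_norm m k j])]
  show FF m (zin (tt m (rho k))) = _
  rw [h2]
  exact FF_inp m _ (st_mem m k)

lemma ww_rho (γ : Ix) (k : K Ix) : (ww γ).1 (rho k) = (ww γ).1 k / 4 := by
  rcases γ with _ | ⟨m, j, s⟩
  · rfl
  · rw [ww_some, ww_some]
    have h0 : (rho k none : ℝ) = k none / 4 := rfl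
    rcases eq_or_lt_of_le (k none).2.1 with h | h
    · have h' : (k none : ℝ) = 0 := h.symm
      rw [h0, h']
      simp
    · rw [st_rho m k h, h0]
      ring

/-- The projection is idempotent. -/
theorem pj_pj (f : P Ix) : pj (pj f) = pj f := by
  have h1 : IsLatticeHom (pj.comp pj) := pj_hom.comp pj_hom
  have h2 : pj.comp pj = pj := by
    apply hom_ext h1 pj_hom
    intro γ
    show pj (pj (dl γ)) = pj (dl γ)
    rw [pj_dl]
    apply P_ext
    intro k
    rw [pj_ap, ww_rho]
    ring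
  exact congrArg (fun T : P Ix →L[ℝ] P Ix => T f) h2

end Pool.Agent.X171.IP
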