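import Mathlib

/-! Towers of null-homotopic surjective maps of the circle, and retractions onto them. -/

open Filter Topology

namespace Pool.Agent.X171.IP

/-- `exp (2 π i a)` -/
noncomputable def ee (a : ℝ) : ℂ := Complex.exp (((2 * Real.pi * a : ℝ) : ℂ) * Complex.I)

lemma norm_ee (a : ℝ) : ‖ee a‖ = 1 := Complex.norm_exp_ofReal_mul_I _

lemma ee_zero : ee 0 = 1 := by simp [ee]

lemma continuous_ee : Continuous ee := by
  unfold ee
  fun_prop

/-- the direction of `z` -/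
noncomputable def vv (z : ℂ) : ℂ := z / (‖z‖ : ℂ)

lemma vv_zero : vv 0 = 0 := by simp [vv]

lemma norm_vv_le (z : ℂ) : ‖vv z‖ ≤ 1 := by
  unfold vv
  rw [norm_div, Complex.norm_real, norm_norm]
  exact div_self_le_one _

lemma mul_vv (z : ℂ) : (‖z‖ : ℂ) * vv z = z := by
  unfold vv
  by_cases h : z = 0
  · simp [h]
  · have : (‖z‖ : ℂ) ≠ 0 := by exact_mod_cast norm_ne_zero_iff.2 h
    field_simp

/-- the height function of the circle -/
noncomputable def TT (z : ℂ) : ℝ := (1 - (vv z).re) / 2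

lemma TT_nonneg (z : ℂ) : 0 ≤ TT z := by
  have := (Complex.abs_re_le_norm (vv z)).trans (norm_vv_le z)
  have := (abs_le.1 this).2
  unfold TT
  linarith

lemma TT_le_one (z : ℂ) : TT z ≤ 1 := by
  have := (Complex.abs_re_le_norm (vv z)).trans (norm_vv_le z)
  have := (abs_le.1 this).1
  unfold TT
  linarith

/-- the attaching map -/
noncomputable def GG (z : ℂ) : ℂ := ee (max (1 - ‖z‖) 0 * TT z)

lemma norm_GG (z : ℂ) : ‖GG z‖ = 1 := norm_ee _

/-- the mismatch -/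
noncomputable def eta (z : ℂ) (u : ℝ) (z' : ℂ) : ℝ :=
  max (1 - ‖z‖) 0 * (max (1 - ‖z‖ - u) 0 + ‖z' - GG z‖)

lemma eta_nonneg (z : ℂ) (u : ℝ) (z' : ℂ) : 0 ≤ eta z u z' :=
  mul_nonneg (le_max_right _ _) (add_nonneg (le_max_right _ _) (norm_nonneg _))

/-- the new radius -/
noncomputable def rr (z : ℂ) (u : ℝ) (z' : ℂ) : ℝ := max (‖z‖ - eta z u z') 0

/-- the parameter of the second stage -/
noncomputable def mu (z : ℂ) (u : ℝ) (z' : ℂ) : ℝ :=
  max (eta z u z' - ‖z‖) 0 / max (eta z u z') ‖z‖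

lemma mu_nonneg (z : ℂ) (u : ℝ) (z' : ℂ) : 0 ≤ mu z u z' :=
  div_nonneg (le_max_right _ _) (le_max_of_le_right (norm_nonneg _))

lemma mu_le_one (z : ℂ) (u : ℝ) (z' : ℂ) : mu z u z' ≤ 1 := by
  refine div_le_one_of_le₀ (max_le ?_ (le_max_of_le_right (norm_nonneg _)))
    (le_max_of_le_right (norm_nonneg _))
  exact (sub_le_self _ (norm_nonneg _)).trans (le_max_left _ _)

/-- the gate -/
noncomputable def th (u : ℝ) : ℝ := max (min (2 * u - 1) 1) 0

lemma th_nonneg (u : ℝ) : 0 ≤ th u := le_max_right _ _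
lemma th_le_one (u : ℝ) : th u ≤ 1 := max_le (min_le_right _ _) zero_le_one

/-- the attaching point -/
noncomputable def gg (z : ℂ) (u : ℝ) (z' : ℂ) : ℂ := ee (max (1 - rr z u z') 0 * TT z)

/-- the unwinding path -/
noncomputable def AA (z : ℂ) (u : ℝ) (z' : ℂ) : ℂ :=
  ee ((1 - mu z u z') * (max (1 - rr z u z') 0 * TT z))

/-- the input of the next stage -/
noncomputable def nxt (τ : ℕ → ℂ × ℝ) : ℕ → ℂ × ℝ := fun k =>
  ((1 - (th (τ 0).2 : ℂ)) * (if k = 0 then AA (τ 0).1 (τ 0).2 (τ 1).1 else 1) +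
    (th (τ 0).2 : ℂ) * ((1 - (mu (τ 0).1 (τ 0).2 (τ 1).1 : ℂ)) *
      (if k = 0 then gg (τ 0).1 (τ 0).2 (τ 1).1 else 1) +
      (mu (τ 0).1 (τ 0).2 (τ 1).1 : ℂ) * (τ (k + 1)).1),
    th (τ 0).2 * mu (τ 0).1 (τ 0).2 (τ 1).1 * (τ (k + 1)).2)

/-- a point of the first circle -/
def base (z : ℂ) : ℕ → ℂ := fun k => if k = 0 then z else 1

/-- putting an element in front of a sequence -/
def cons {α : Type*} (a : α) (x : ℕ → α) : ℕ → α := fun k => Nat.casesOn k a x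

@[simp] lemma cons_zero {α : Type*} (a : α) (x : ℕ → α) : cons a x 0 = a := rfl
@[simp] lemma cons_succ {α : Type*} (a : α) (x : ℕ → α) (k : ℕ) : cons a x (k + 1) = x k := rfl

/-- the head -/
noncomputable def hd (τ : ℕ → ℂ × ℝ) : ℂ := (rr (τ 0).1 (τ 0).2 (τ 1).1 : ℂ) * vv (τ 0).1

/-- The tower map. -/
noncomputable def FF : ℕ → (ℕ → ℂ × ℝ) → (ℕ → ℂ)
  | 0, τ => base (τ 0).1
  | n + 1, τ => cons (hd τ) (FF n (nxt τ))

/-- **P1.** -/
lemma FF_of_norm (n : ℕ) : ∀ τ : ℕ → ℂ × ℝ, 1 ≤ ‖(τ 0).1‖ → FF n τ = base (τ 0).1 := by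
  induction n with
  | zero => intro τ _; rfl
  | succ n ih =>
    intro τ h
    have h1 : max (1 - ‖(τ 0).1‖) 0 = 0 := max_eq_right (by linarith)
    have h2 : eta (τ 0).1 (τ 0).2 (τ 1).1 = 0 := by
      unfold eta
      rw [h1, zero_mul]
    have h3 : rr (τ 0).1 (τ 0).2 (τ 1).1 = ‖(τ 0).1‖ := by
      unfold rr
      rw [h2, sub_zero, max_eq_left (norm_nonneg _)]
    have h4 : mu (τ 0).1 (τ 0).2 (τ 1).1 = 0 := by
      unfold mu
      rw [h2, zero_sub, max_eq_right (by linarith), zero_div]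
    have h5 : gg (τ 0).1 (τ 0).2 (τ 1).1 = 1 := by
      unfold gg
      rw [h3, h1, zero_mul, ee_zero]
    have h6 : AA (τ 0).1 (τ 0).2 (τ 1).1 = 1 := by
      unfold AA
      rw [h3, h1, zero_mul, mul_zero, ee_zero]
    have h7 : (nxt τ 0).1 = 1 := by
      simp [nxt, h4, h5, h6]
    have h8 : FF n (nxt τ) = base 1 := by
      rw [ih (nxt τ) (by rw [h7]; simp), h7]
    show cons (hd τ) (FF n (nxt τ)) = base (τ 0).1
    rw [h8]
    funext k
    cases k with
    | zero =>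
      show hd τ = _
      unfold hd
      rw [h3, mul_vv]
      rfl
    | succ k => simp [base]

/-- the limit input at `z = 0` -/
noncomputable def lim0 (τ : ℕ → ℂ × ℝ) : ℕ → ℂ × ℝ := fun k =>
  ((1 - (th (τ 0).2 : ℂ)) + (th (τ 0).2 : ℂ) * (τ (k + 1)).1, th (τ 0).2 * (τ (k + 1)).2)

lemma th_eq_one {u : ℝ} (h : max (1 - u) 0 = 0) : th u = 1 := by
  have h1 : 1 ≤ u := by
    have := le_max_left (1 - u) 0
    linarith
  unfold th
  rw [min_eq_right (by linarith), max_eq_left zero_le_one]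

lemma FF_nxt_zero (n : ℕ) (τ : ℕ → ℂ × ℝ) (h : (τ 0).1 = 0) :
    FF n (nxt τ) = FF n (lim0 τ) := by
  have hn : ‖(τ 0).1‖ = 0 := by rw [h, norm_zero]
  have hr : rr (τ 0).1 (τ 0).2 (τ 1).1 = 0 := by
    unfold rr
    rw [hn]
    exact max_eq_right (by linarith [eta_nonneg (τ 0).1 (τ 0).2 (τ 1).1])
  rcases eq_or_lt_of_le (eta_nonneg (τ 0).1 (τ 0).2 (τ 1).1) with he | he
  · -- the mismatch vanishes
    have he' : max (1 - (τ 0).2) 0 + ‖(τ 1).1 - GG (τ 0).1‖ = 0 := by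
      unfold eta at he
      rw [hn] at he
      simpa using he.symm
    have h1 : max (1 - (τ 0).2) 0 = 0 :=
      le_antisymm (by linarith [norm_nonneg ((τ 1).1 - GG (τ 0).1)]) (le_max_right _ _)
    have h2 : (τ 1).1 = GG (τ 0).1 := by
      rw [← sub_eq_zero, ← norm_eq_zero]
      linarith
    have h3 := th_eq_one h1
    have h4 : mu (τ 0).1 (τ 0).2 (τ 1).1 = 0 := by
      unfold mu
      rw [← he, hn]
      simp
    have h5 : gg (τ 0).1 (τ 0).2 (τ 1).1 = GG (τ 0).1 := by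
      unfold gg GG
      rw [hr, hn]
    rw [FF_of_norm n (nxt τ), FF_of_norm n (lim0 τ)]
    · congr 1
      simp only [nxt, lim0, h3, h4, h5]
      simp [h2]
    · simp [lim0, h3, h2, norm_GG]
    · simp [nxt, h3, h4, h5, norm_GG]
  · have h4 : mu (τ 0).1 (τ 0).2 (τ 1).1 = 1 := by
      unfold mu
      rw [hn, sub_zero, max_eq_left he.le, div_self he.ne']
    have h6 : AA (τ 0).1 (τ 0).2 (τ 1).1 = 1 := by
      unfold AA
      rw [h4, sub_self, zero_mul, ee_zero]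
    congr 1
    funext k
    by_cases hk : k = 0
    · simp [nxt, lim0, h4, h6, hk]
    · simp [nxt, lim0, h4, hk]

end Pool.Agent.X171.IP
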