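import Pool.Agent.X171.IP.Tower

/-! Continuity of the tower maps. -/

open Filter Topology

namespace Pool.Agent.X171.IP

lemma continuous_th : Continuous th := by
  unfold th
  fun_prop

lemma c1 (k : ℕ) : Continuous fun τ : ℕ → ℂ × ℝ => (τ k).1 :=
  continuous_fst.comp (continuous_apply k)

lemma c2 (k : ℕ) : Continuous fun τ : ℕ → ℂ × ℝ => (τ k).2 :=
  continuous_snd.comp (continuous_apply k)

section
variable {α : Type*} {l : Filter α}

/-- limits of the components, given limits of the direction -/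
lemma tendsto_TT_of {z : α → ℂ} {v : ℂ} (h : Tendsto (fun a => vv (z a)) l (𝓝 v)) :
    Tendsto (fun a => TT (z a)) l (𝓝 ((1 - v.re) / 2)) := by
  unfold TT
  exact (tendsto_const_nhds.sub ((Complex.continuous_re.tendsto v).comp h)).div_const 2

end

/-- continuity away from `z = 0` -/
lemma nxt_cont {τ : ℕ → ℂ × ℝ} (h : (τ 0).1 ≠ 0) : ContinuousAt nxt τ := by
  have hz : ContinuousAt (fun τ : ℕ → ℂ × ℝ => (τ 0).1) τ := (c1 0).continuousAt
  have hu : ContinuousAt (fun τ : ℕ → ℂ × ℝ => (τ 0).2) τ := (c2 0).continuousAt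
  have hz' : ContinuousAt (fun τ : ℕ → ℂ × ℝ => (τ 1).1) τ := (c1 1).continuousAt
  have hn : (‖(τ 0).1‖ : ℂ) ≠ 0 := by exact_mod_cast norm_ne_zero_iff.2 h
  have hpos : 0 < ‖(τ 0).1‖ := norm_pos_iff.2 h
  have hv : ContinuousAt (fun τ : ℕ → ℂ × ℝ => vv (τ 0).1) τ := by
    unfold vv
    refine hz.div ?_ hn
    fun_prop
  have hT : ContinuousAt (fun τ : ℕ → ℂ × ℝ => TT (τ 0).1) τ := tendsto_TT_of hv
  have hG : ContinuousAt (fun τ : ℕ → ℂ × ℝ => GG (τ 0).1) τ := by
    unfold GG
    refine continuous_ee.continuousAt.comp ?_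
    exact ContinuousAt.mul (by fun_prop) hT
  have he : ContinuousAt (fun τ : ℕ → ℂ × ℝ => eta (τ 0).1 (τ 0).2 (τ 1).1) τ := by
    unfold eta
    exact ContinuousAt.mul (by fun_prop) (ContinuousAt.add (by fun_prop) (hz'.sub hG).norm)
  have hr : ContinuousAt (fun τ : ℕ → ℂ × ℝ => rr (τ 0).1 (τ 0).2 (τ 1).1) τ := by
    unfold rr
    exact Tendsto.max (hz.norm.sub he) continuousAt_const
  have hm : ContinuousAt (fun τ : ℕ → ℂ × ℝ => mu (τ 0).1 (τ 0).2 (τ 1).1) τ := by
    unfold mu
    refine ContinuousAt.div (Tendsto.max (he.sub hz.norm) continuousAt_const)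
      (Tendsto.max he hz.norm) ?_
    exact (lt_max_of_lt_right hpos).ne'
  have hgg : ContinuousAt (fun τ : ℕ → ℂ × ℝ => gg (τ 0).1 (τ 0).2 (τ 1).1) τ := by
    unfold gg
    refine continuous_ee.continuousAt.comp ?_
    exact ContinuousAt.mul (Tendsto.max (continuousAt_const.sub hr) continuousAt_const) hT
  have hAA : ContinuousAt (fun τ : ℕ → ℂ × ℝ => AA (τ 0).1 (τ 0).2 (τ 1).1) τ := by
    unfold AA
    refine continuous_ee.continuousAt.comp ?_
    exact ContinuousAt.mul (continuousAt_const.sub hm)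
      (ContinuousAt.mul (Tendsto.max (continuousAt_const.sub hr) continuousAt_const) hT)
  have hth : ContinuousAt (fun τ : ℕ → ℂ × ℝ => th (τ 0).2) τ :=
    continuous_th.continuousAt.comp hu
  have hthC : ContinuousAt (fun τ : ℕ → ℂ × ℝ => (th (τ 0).2 : ℂ)) τ :=
    Complex.continuous_ofReal.continuousAt.comp hth
  have hmC : ContinuousAt (fun τ : ℕ → ℂ × ℝ => (mu (τ 0).1 (τ 0).2 (τ 1).1 : ℂ)) τ :=
    Complex.continuous_ofReal.continuousAt.comp hm
  rw [ContinuousAt, tendsto_pi_nhds]
  intro k
  have hk1 : ContinuousAt (fun τ : ℕ → ℂ × ℝ => (τ (k + 1)).1) τ := (c1 _).continuousAt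
  have hk2 : ContinuousAt (fun τ : ℕ → ℂ × ℝ => (τ (k + 1)).2) τ := (c2 _).continuousAt
  refine Tendsto.prodMk_nhds ?_ ?_
  · by_cases hk : k = 0
    · simp only [hk, if_true]
      rw [hk] at hk1
      exact ((continuousAt_const.sub hthC).mul hAA).add
        (hthC.mul (((continuousAt_const.sub hmC).mul hgg).add (hmC.mul hk1)))
    · simp only [hk, if_false]
      exact ((continuousAt_const.sub hthC).mul continuousAt_const).add
        (hthC.mul (((continuousAt_const.sub hmC).mul continuousAt_const).add (hmC.mul hk1)))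
  · exact (hth.mul hm).mul hk2

lemma lim0_cont : Continuous lim0 := by
  apply continuous_pi
  intro k
  have h1 : Continuous fun τ : ℕ → ℂ × ℝ => (th (τ 0).2 : ℂ) :=
    Complex.continuous_ofReal.comp (continuous_th.comp (by fun_prop))
  have h2 : Continuous fun τ : ℕ → ℂ × ℝ => th (τ 0).2 := continuous_th.comp (by fun_prop)
  exact ((continuous_const.sub h1).add (h1.mul (by fun_prop))).prodMk (h2.mul (by fun_prop))

lemma hd_norm_le (τ : ℕ → ℂ × ℝ) : ‖hd τ‖ ≤ ‖(τ 0).1‖ := by
  unfold hd
  have h0 : 0 ≤ rr (τ 0).1 (τ 0).2 (τ 1).1 := le_max_right _ _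
  rw [norm_mul, Complex.norm_real, Real.norm_of_nonneg h0]
  have h1 : rr (τ 0).1 (τ 0).2 (τ 1).1 ≤ ‖(τ 0).1‖ := by
    unfold rr
    exact max_le (sub_le_self _ (eta_nonneg _ _ _)) (norm_nonneg _)
  calc rr (τ 0).1 (τ 0).2 (τ 1).1 * ‖vv (τ 0).1‖ ≤ ‖(τ 0).1‖ * 1 :=
        mul_le_mul h1 (norm_vv_le _) (norm_nonneg _) (norm_nonneg _)
    _ = _ := mul_one _

lemma hd_cont : Continuous hd := by
  rw [continuous_iff_continuousAt]
  intro τ
  by_cases h : (τ 0).1 = 0
  · have h0 : hd τ = 0 := by
      have := hd_norm_le τ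
      rw [h, norm_zero] at this
      exact norm_le_zero_iff.1 this
    rw [ContinuousAt, h0]
    refine squeeze_zero_norm (a := fun τ : ℕ → ℂ × ℝ => ‖(τ 0).1‖) (fun τ => hd_norm_le τ) ?_
    have : Continuous fun τ : ℕ → ℂ × ℝ => ‖(τ 0).1‖ := by fun_prop
    have h2 := this.tendsto τ
    rwa [h, norm_zero] at h2
  · have hz : ContinuousAt (fun τ : ℕ → ℂ × ℝ => (τ 0).1) τ := (c1 0).continuousAt
    have hz' : ContinuousAt (fun τ : ℕ → ℂ × ℝ => (τ 1).1) τ := (c1 1).continuousAt
    have hn : (‖(τ 0).1‖ : ℂ) ≠ 0 := by exact_mod_cast norm_ne_zero_iff.2 h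
    have hv : ContinuousAt (fun τ : ℕ → ℂ × ℝ => vv (τ 0).1) τ := by
      unfold vv
      refine hz.div ?_ hn
      fun_prop
    have hT : ContinuousAt (fun τ : ℕ → ℂ × ℝ => TT (τ 0).1) τ := tendsto_TT_of hv
    have hG : ContinuousAt (fun τ : ℕ → ℂ × ℝ => GG (τ 0).1) τ := by
      unfold GG
      refine continuous_ee.continuousAt.comp ?_
      exact ContinuousAt.mul (by fun_prop) hT
    have he : ContinuousAt (fun τ : ℕ → ℂ × ℝ => eta (τ 0).1 (τ 0).2 (τ 1).1) τ := by
      unfold eta
      exact ContinuousAt.mul (by fun_prop) (ContinuousAt.add (by fun_prop) (hz'.sub hG).norm)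
    have hr : ContinuousAt (fun τ : ℕ → ℂ × ℝ => rr (τ 0).1 (τ 0).2 (τ 1).1) τ := by
      unfold rr
      exact Tendsto.max (hz.norm.sub he) continuousAt_const
    exact (Complex.continuous_ofReal.continuousAt.comp hr).mul hv

/-- **Continuity of the tower maps.** -/
theorem FF_cont (n : ℕ) : Continuous (FF n) := by
  induction n with
  | zero =>
    apply continuous_pi
    intro k
    show Continuous fun τ : ℕ → ℂ × ℝ => base (τ 0).1 k
    unfold base
    by_cases hk : k = 0
    · simp only [hk, if_true]; fun_prop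
    · simp only [hk, if_false]; fun_prop
  | succ n ih =>
    have key : Continuous fun τ => FF n (nxt τ) := by
      rw [continuous_iff_continuousAt]
      intro τ
      by_cases h : (τ 0).1 = 0
      · rw [continuousAt_iff_ultrafilter]
        intro g hg
        rw [FF_nxt_zero n τ h]
        have tz : Tendsto (fun τ : ℕ → ℂ × ℝ => (τ 0).1) g (𝓝 0) := by
          have : Continuous fun τ : ℕ → ℂ × ℝ => (τ 0).1 := by fun_prop
          have h2 := (this.tendsto τ).mono_left hg
          rwa [h] at h2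
        have tn : Tendsto (fun τ : ℕ → ℂ × ℝ => ‖(τ 0).1‖) g (𝓝 0) := by
          simpa using tz.norm
        have tu : Tendsto (fun τ : ℕ → ℂ × ℝ => (τ 0).2) g (𝓝 (τ 0).2) := by
          have : Continuous fun τ : ℕ → ℂ × ℝ => (τ 0).2 := by fun_prop
          exact (this.tendsto τ).mono_left hg
        have tk1 : ∀ k, Tendsto (fun τ : ℕ → ℂ × ℝ => (τ k).1) g (𝓝 (τ k).1) := by
          intro k
          have : Continuous fun τ : ℕ → ℂ × ℝ => (τ k).1 := by fun_prop
          exact (this.tendsto τ).mono_left hg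
        have tk2 : ∀ k, Tendsto (fun τ : ℕ → ℂ × ℝ => (τ k).2) g (𝓝 (τ k).2) := by
          intro k
          have : Continuous fun τ : ℕ → ℂ × ℝ => (τ k).2 := by fun_prop
          exact (this.tendsto τ).mono_left hg
        -- the limit of the direction
        obtain ⟨v, -, hv⟩ : ∃ v ∈ Metric.closedBall (0 : ℂ) 1,
            Tendsto (fun τ : ℕ → ℂ × ℝ => vv (τ 0).1) g (𝓝 v) := by
          have hc := isCompact_closedBall (0 : ℂ) 1
          rw [isCompact_iff_ultrafilter_le_nhds] at hc
          refine hc (g.map fun τ : ℕ → ℂ × ℝ => vv (τ 0).1) ?_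
          rw [le_principal_iff, Ultrafilter.mem_coe, Ultrafilter.mem_map]
          refine Filter.univ_mem' fun τ => ?_
          simpa using norm_vv_le (τ 0).1
        obtain ⟨m, hm01, hm⟩ : ∃ m ∈ Set.Icc (0 : ℝ) 1,
            Tendsto (fun τ : ℕ → ℂ × ℝ => mu (τ 0).1 (τ 0).2 (τ 1).1) g (𝓝 m) := by
          have hc : IsCompact (Set.Icc (0 : ℝ) 1) := isCompact_Icc
          rw [isCompact_iff_ultrafilter_le_nhds] at hc
          refine hc (g.map fun τ : ℕ → ℂ × ℝ => mu (τ 0).1 (τ 0).2 (τ 1).1) ?_
          rw [le_principal_iff, Ultrafilter.mem_coe, Ultrafilter.mem_map]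
          exact Filter.univ_mem' fun τ => ⟨mu_nonneg _ _ _, mu_le_one _ _ _⟩
        have hT := tendsto_TT_of hv
        set T := (1 - v.re) / 2 with hTdef
        have ha0 : Tendsto (fun τ : ℕ → ℂ × ℝ => max (1 - ‖(τ 0).1‖) 0) g (𝓝 1) := by
          have h1 := (tendsto_const_nhds.sub tn : Tendsto (fun τ : ℕ → ℂ × ℝ =>
            (1 : ℝ) - ‖(τ 0).1‖) g (𝓝 (1 - 0)))
          have h2 := h1.max (tendsto_const_nhds (x := (0 : ℝ)))
          simpa using h2
        have hG : Tendsto (fun τ : ℕ → ℂ × ℝ => GG (τ 0).1) g (𝓝 (ee T)) := by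
          unfold GG
          have h1 := ha0.mul hT
          rw [one_mul] at h1
          exact (continuous_ee.tendsto T).comp h1
        set E := max (1 - (τ 0).2) 0 + ‖(τ 1).1 - ee T‖ with hE
        have he : Tendsto (fun τ : ℕ → ℂ × ℝ => eta (τ 0).1 (τ 0).2 (τ 1).1) g (𝓝 E) := by
          unfold eta
          have h1 : Tendsto (fun τ : ℕ → ℂ × ℝ => max (1 - ‖(τ 0).1‖ - (τ 0).2) 0) g
              (𝓝 (max (1 - 0 - (τ 0).2) 0)) :=
            ((tendsto_const_nhds.sub tn).sub tu).max tendsto_const_nhds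
          rw [sub_zero] at h1
          have h2 := ha0.mul (h1.add ((tk1 1).sub hG).norm)
          rwa [one_mul] at h2
        have hE0 : 0 ≤ E := add_nonneg (le_max_right _ _) (norm_nonneg _)
        have hr : Tendsto (fun τ : ℕ → ℂ × ℝ => rr (τ 0).1 (τ 0).2 (τ 1).1) g (𝓝 0) := by
          unfold rr
          have h1 := (tn.sub he).max (tendsto_const_nhds (x := (0 : ℝ)))
          rwa [zero_sub, max_eq_right (neg_nonpos.2 hE0)] at h1
        have ha1 : Tendsto (fun τ : ℕ → ℂ × ℝ => max (1 - rr (τ 0).1 (τ 0).2 (τ 1).1) 0) g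
            (𝓝 1) := by
          have h2 := (tendsto_const_nhds.sub hr : Tendsto (fun τ : ℕ → ℂ × ℝ =>
            (1 : ℝ) - rr (τ 0).1 (τ 0).2 (τ 1).1) g (𝓝 (1 - 0)))
          have h3 := h2.max (tendsto_const_nhds (x := (0 : ℝ)))
          simpa using h3
        have ha2 := ha1.mul hT
        rw [one_mul] at ha2
        have hgg : Tendsto (fun τ : ℕ → ℂ × ℝ => gg (τ 0).1 (τ 0).2 (τ 1).1) g (𝓝 (ee T)) :=
          (continuous_ee.tendsto T).comp ha2
        have hAA : Tendsto (fun τ : ℕ → ℂ × ℝ => AA (τ 0).1 (τ 0).2 (τ 1).1) g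
            (𝓝 (ee ((1 - m) * T))) :=
          (continuous_ee.tendsto _).comp ((tendsto_const_nhds.sub hm).mul ha2)
        have hth : Tendsto (fun τ : ℕ → ℂ × ℝ => th (τ 0).2) g (𝓝 (th (τ 0).2)) :=
          (continuous_th.tendsto _).comp tu
        have hthC : Tendsto (fun τ : ℕ → ℂ × ℝ => (th (τ 0).2 : ℂ)) g (𝓝 (th (τ 0).2 : ℂ)) :=
          (Complex.continuous_ofReal.tendsto _).comp hth
        have hmC : Tendsto (fun τ : ℕ → ℂ × ℝ => (mu (τ 0).1 (τ 0).2 (τ 1).1 : ℂ)) g
            (𝓝 (m : ℂ)) := (Complex.continuous_ofReal.tendsto _).comp hm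
        let L : ℕ → ℂ × ℝ := fun k =>
          ((1 - (th (τ 0).2 : ℂ)) * (if k = 0 then ee ((1 - m) * T) else 1) +
            (th (τ 0).2 : ℂ) * ((1 - (m : ℂ)) * (if k = 0 then ee T else 1) +
              (m : ℂ) * (τ (k + 1)).1), th (τ 0).2 * m * (τ (k + 1)).2)
        have hL : Tendsto nxt g (𝓝 L) := by
          rw [tendsto_pi_nhds]
          intro k
          refine Tendsto.prodMk_nhds ?_ ?_
          · by_cases hk : k = 0
            · simp only [hk, if_true]
              exact ((tendsto_const_nhds.sub hthC).mul hAA).add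
                (hthC.mul (((tendsto_const_nhds.sub hmC).mul hgg).add (hmC.mul (tk1 _))))
            · simp only [hk, if_false]
              exact ((tendsto_const_nhds.sub hthC).mul tendsto_const_nhds).add
                (hthC.mul (((tendsto_const_nhds.sub hmC).mul tendsto_const_nhds).add
                  (hmC.mul (tk1 _))))
          · exact (hth.mul hm).mul (tk2 _)
        have hFL : Tendsto (fun τ => FF n (nxt τ)) g (𝓝 (FF n L)) := (ih.tendsto L).comp hL
        have heq : FF n L = FF n (lim0 τ) := by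
          rcases eq_or_lt_of_le hE0 with hE1 | hE1
          · have h1 : max (1 - (τ 0).2) 0 = 0 :=
              le_antisymm (by linarith [norm_nonneg ((τ 1).1 - ee T)]) (le_max_right _ _)
            have h2 : (τ 1).1 = ee T := by
              rw [← sub_eq_zero, ← norm_eq_zero]
              linarith [le_max_right (1 - (τ 0).2) 0]
            have h3 := th_eq_one h1
            have h4 : (L 0).1 = ee T := by
              simp only [L, h3, if_true, zero_add, h2]
              push_cast
              ring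
            have h5 : (lim0 τ 0).1 = ee T := by
              simp only [lim0, h3, zero_add, h2]
              push_cast
              ring
            rw [FF_of_norm n L (by rw [h4, norm_ee]), FF_of_norm n (lim0 τ)
              (by rw [h5, norm_ee]), h4, h5]
          · have h1 : m = 1 := by
              have h2 : Tendsto (fun τ : ℕ → ℂ × ℝ => mu (τ 0).1 (τ 0).2 (τ 1).1) g
                  (𝓝 (max (E - 0) 0 / max E 0)) := by
                unfold mu
                refine ((he.sub tn).max tendsto_const_nhds).div (he.max tn) ?_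
                exact (lt_max_of_lt_left hE1).ne'
              rw [sub_zero, div_self (lt_max_of_lt_left hE1).ne'] at h2
              exact tendsto_nhds_unique hm h2
            congr 1
            funext k
            simp only [L, lim0, h1, sub_self, zero_mul, ee_zero, ite_self, mul_one,
              Complex.ofReal_one, zero_add, one_mul]
        rw [heq] at hFL
        exact hFL
      · exact ih.continuousAt.comp (nxt_cont h)
    apply continuous_pi
    intro k
    cases k with
    | zero => exact hd_cont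
    | succ k => exact (continuous_apply k).comp key

end Pool.Agent.X171.IP
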