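import Pool.Agent.X171.IP.TowerCont

/-! Properties of the tower maps. -/

open Filter Topology

namespace Pool.Agent.X171.IP

/-- the tower of height `n` -/
def WW : ℕ → Set (ℕ → ℂ)
  | 0 => {x | ‖x 0‖ ≤ 1 ∧ ∀ k, x (k + 1) = 1}
  | n + 1 => {x | ‖x 0‖ ≤ 1 ∧ (fun k => x (k + 1)) ∈ WW n ∧
      (x 0 = 0 ∨ (fun k => x (k + 1)) = base (GG (x 0)))}

/-- admissible inputs -/
def VV : Set (ℕ → ℂ × ℝ) := {τ | ∀ k, ‖(τ k).1‖ ≤ 1 ∧ 0 ≤ (τ k).2}

lemma norm_conv_le {a b : ℂ} (ha : ‖a‖ ≤ 1) (hb : ‖b‖ ≤ 1) {t : ℝ} (h0 : 0 ≤ t) (h1 : t ≤ 1) :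
    ‖(1 - (t : ℂ)) * a + (t : ℂ) * b‖ ≤ 1 := by
  have h2 : (1 - (t : ℂ)) = ((1 - t : ℝ) : ℂ) := by push_cast; ring
  refine (norm_add_le _ _).trans ?_
  rw [norm_mul, norm_mul, h2, Complex.norm_real, Complex.norm_real, Real.norm_of_nonneg h0,
    Real.norm_of_nonneg (by linarith)]
  nlinarith [norm_nonneg a, norm_nonneg b]

lemma nxt_mem {τ : ℕ → ℂ × ℝ} (h : τ ∈ VV) : nxt τ ∈ VV := by
  intro k
  constructor
  · refine norm_conv_le ?_ (norm_conv_le ?_ (h _).1 (mu_nonneg _ _ _) (mu_le_one _ _ _))
      (th_nonneg _) (th_le_one _)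
    · split_ifs
      · exact (norm_ee _).le
      · simp
    · split_ifs
      · exact (norm_ee _).le
      · simp
  · exact mul_nonneg (mul_nonneg (th_nonneg _) (mu_nonneg _ _ _)) (h _).2

lemma norm_hd (τ : ℕ → ℂ × ℝ) (h : (τ 0).1 ≠ 0) :
    ‖hd τ‖ = rr (τ 0).1 (τ 0).2 (τ 1).1 := by
  have h0 : 0 ≤ rr (τ 0).1 (τ 0).2 (τ 1).1 := le_max_right _ _
  have h1 : ‖vv (τ 0).1‖ = 1 := by
    unfold vv
    rw [norm_div, Complex.norm_real, norm_norm, div_self (norm_ne_zero_iff.2 h)]
  unfold hd
  rw [norm_mul, Complex.norm_real, Real.norm_of_nonneg h0, h1, mul_one]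

lemma hd_dir (τ : ℕ → ℂ × ℝ) (h : hd τ ≠ 0) : vv (hd τ) = vv (τ 0).1 := by
  have hz : (τ 0).1 ≠ 0 := by
    intro h0
    have := hd_norm_le τ
    rw [h0, norm_zero] at this
    exact h (norm_le_zero_iff.1 this)
  have hr : (rr (τ 0).1 (τ 0).2 (τ 1).1 : ℂ) ≠ 0 := by
    intro h0
    apply h
    unfold hd
    rw [h0, zero_mul]
  show hd τ / (‖hd τ‖ : ℂ) = _
  rw [norm_hd τ hz]
  unfold hd
  field_simp

/-- If the head does not vanish, the tail is on the first circle. -/
lemma nxt_of_hd {τ : ℕ → ℂ × ℝ} (h : hd τ ≠ 0) (n : ℕ) :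
    FF n (nxt τ) = base (GG (hd τ)) := by
  have hr0 : 0 ≤ rr (τ 0).1 (τ 0).2 (τ 1).1 := le_max_right _ _
  have hr : rr (τ 0).1 (τ 0).2 (τ 1).1 ≠ 0 := by
    intro h0
    apply h
    unfold hd
    rw [h0, Complex.ofReal_zero, zero_mul]
  have hz : (τ 0).1 ≠ 0 := by
    intro h0
    have := hd_norm_le τ
    rw [h0, norm_zero] at this
    exact h (norm_le_zero_iff.1 this)
  have hlt : eta (τ 0).1 (τ 0).2 (τ 1).1 < ‖(τ 0).1‖ := by
    by_contra hcon
    apply hr
    unfold rr
    exact max_eq_right (by linarith)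
  have hm : mu (τ 0).1 (τ 0).2 (τ 1).1 = 0 := by
    unfold mu
    rw [max_eq_right (by linarith : eta (τ 0).1 (τ 0).2 (τ 1).1 - ‖(τ 0).1‖ ≤ 0), zero_div]
  have hG : GG (hd τ) = gg (τ 0).1 (τ 0).2 (τ 1).1 := by
    unfold GG gg TT
    rw [norm_hd τ hz, hd_dir τ h]
  have hA : AA (τ 0).1 (τ 0).2 (τ 1).1 = gg (τ 0).1 (τ 0).2 (τ 1).1 := by
    unfold AA gg
    rw [hm, sub_zero, one_mul]
  have h0 : (nxt τ 0).1 = GG (hd τ) := by
    rw [hG]
    simp only [nxt, if_true, hm, hA]
    push_cast
    ring
  rw [FF_of_norm n (nxt τ) (by rw [h0, norm_GG]), h0]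

/-- **T1.** -/
lemma FF_mem (n : ℕ) : ∀ τ ∈ VV, FF n τ ∈ WW n := by
  induction n with
  | zero =>
    intro τ hτ
    exact ⟨(hτ 0).1, fun k => rfl⟩
  | succ n ih =>
    intro τ hτ
    refine ⟨(hd_norm_le τ).trans (hτ 0).1, ih _ (nxt_mem hτ), ?_⟩
    by_cases h : hd τ = 0
    · exact Or.inl h
    · exact Or.inr (nxt_of_hd h n)

/-- **T3.** -/
lemma FF_depth (n : ℕ) : ∀ τ ∈ VV, ∀ k, 1 - ‖FF n τ (k + 1)‖ ≤ 2 * (τ k).2 := by
  induction n with
  | zero =>
    intro τ hτ k
    have : FF 0 τ (k + 1) = 1 := rfl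
    rw [this, norm_one, sub_self]
    exact mul_nonneg zero_le_two (hτ k).2
  | succ n ih =>
    intro τ hτ k
    show 1 - ‖FF n (nxt τ) k‖ ≤ _
    cases k with
    | zero =>
      by_cases hu : 1 / 2 ≤ (τ 0).2
      · have := norm_nonneg (FF n (nxt τ) 0)
        linarith
      · push Not at hu
        have hth : th (τ 0).2 = 0 := by
          unfold th
          exact max_eq_right ((min_le_left _ _).trans (by linarith))
        have h0 : (nxt τ 0).1 = AA (τ 0).1 (τ 0).2 (τ 1).1 := by
          simp [nxt, hth]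
        have hn : ‖(nxt τ 0).1‖ = 1 := by
          rw [h0]
          exact norm_ee _
        rw [FF_of_norm n (nxt τ) hn.ge]
        have : base (nxt τ 0).1 0 = (nxt τ 0).1 := rfl
        rw [this, hn, sub_self]
        exact mul_nonneg zero_le_two (hτ 0).2
    | succ k =>
      refine (ih (nxt τ) (nxt_mem hτ) k).trans ?_
      have h1 : (nxt τ k).2 ≤ (τ (k + 1)).2 := by
        show th (τ 0).2 * mu (τ 0).1 (τ 0).2 (τ 1).1 * (τ (k + 1)).2 ≤ _
        refine mul_le_of_le_one_left (hτ _).2 ?_
        exact mul_le_one₀ (th_le_one _) (mu_nonneg _ _ _) (mu_le_one _ _ _)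
      linarith

/-- the input belonging to a state -/
noncomputable def inp (x : ℕ → ℂ) : ℕ → ℂ × ℝ := fun k => (x k, 1 - ‖x k‖)

lemma WW_base {n : ℕ} {x : ℕ → ℂ} (hx : x ∈ WW n) (h : ‖x 0‖ = 1) : x = base (x 0) := by
  cases n with
  | zero =>
    funext k
    cases k with
    | zero => rfl
    | succ k => exact hx.2 k
  | succ n =>
    rcases hx.2.2 with h0 | h0
    · rw [h0, norm_zero] at h
      exact absurd h zero_ne_one
    · have hG : GG (x 0) = 1 := by
        unfold GG
        rw [h, sub_self, max_self, zero_mul, ee_zero]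
      funext k
      cases k with
      | zero => rfl
      | succ k =>
        have := congrFun h0 k
        rw [this, hG]
        simp [base]

/-- **T2.** -/
lemma FF_inp (n : ℕ) : ∀ x ∈ WW n, FF n (inp x) = x := by
  induction n with
  | zero =>
    intro x hx
    funext k
    cases k with
    | zero => rfl
    | succ k => exact (hx.2 k).symm
  | succ n ih =>
    intro x hx
    obtain ⟨hx0, hxt, hor⟩ := hx
    by_cases h : x 0 = 0
    · -- the head vanishes
      have e0 : (inp x 0).1 = 0 := h
      have e1 : (inp x 0).2 = 1 := by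
        show 1 - ‖x 0‖ = 1
        rw [h, norm_zero, sub_zero]
      have hhd : hd (inp x) = 0 := by
        have := hd_norm_le (inp x)
        rw [e0, norm_zero] at this
        exact norm_le_zero_iff.1 this
      have hl : lim0 (inp x) = inp (fun k => x (k + 1)) := by
        have hth : th 1 = 1 := th_eq_one (by simp)
        funext k
        simp only [lim0, e1, hth]
        simp [inp]
      show cons (hd (inp x)) (FF n (nxt (inp x))) = x
      rw [FF_nxt_zero n _ e0, hl, ih _ hxt, hhd]
      funext k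
      cases k with
      | zero => exact h.symm
      | succ k => rfl
    · have ht : (fun k => x (k + 1)) = base (GG (x 0)) := by
        rcases hor with h' | h'
        · exact absurd h' h
        · exact h'
      have h1 : x 1 = GG (x 0) := congrFun ht 0
      have he : eta (inp x 0).1 (inp x 0).2 (inp x 1).1 = 0 := by
        show eta (x 0) (1 - ‖x 0‖) (x 1) = 0
        unfold eta
        rw [h1, sub_self, sub_self, norm_zero, max_self, add_zero, mul_zero]
      have hr : rr (inp x 0).1 (inp x 0).2 (inp x 1).1 = ‖x 0‖ := by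
        unfold rr
        rw [he, sub_zero]
        exact max_eq_left (norm_nonneg _)
      have hhd : hd (inp x) = x 0 := by
        unfold hd
        rw [hr]
        exact mul_vv (x 0)
      show cons (hd (inp x)) (FF n (nxt (inp x))) = x
      rw [nxt_of_hd (by rw [hhd]; exact h) n, hhd, ← ht]
      funext k
      cases k with
      | zero => rfl
      | succ k => rfl

/-- in a tower, a state with a coordinate strictly between the centre and the circle -/
lemma WW_mid (n : ℕ) : ∀ x ∈ WW (n + 1), ∀ j ≤ n, x j ≠ 0 → ‖x j‖ < 1 →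
    (∀ i < j, x i = 0) ∧ x (j + 1) = GG (x j) ∧ ∀ i, j + 1 < i → x i = 1 := by
  induction n with
  | zero =>
    intro x hx j hj h0 h1
    have hj0 : j = 0 := by omega
    subst hj0
    refine ⟨fun i hi => absurd hi (by omega), ?_, fun i hi => ?_⟩
    · rcases hx.2.2 with h | h
      · exact absurd h h0
      · exact congrFun h 0
    · rcases hx.2.2 with h | h
      · exact absurd h h0
      · have := congrFun h (i - 1)
        simp only [base] at this
        rw [if_neg (by omega)] at this
        rwa [show i - 1 + 1 = i by omega] at this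
  | succ n ih =>
    intro x hx j hj h0 h1
    obtain ⟨hx0, hxt, hor⟩ := hx
    cases j with
    | zero =>
      have h : (fun k => x (k + 1)) = base (GG (x 0)) := by
        rcases hor with h | h
        · exact absurd h h0
        · exact h
      refine ⟨fun i hi => absurd hi (by omega), congrFun h 0, fun i hi => ?_⟩
      have := congrFun h (i - 1)
      simp only [base] at this
      rw [if_neg (by omega)] at this
      rwa [show i - 1 + 1 = i by omega] at this
    | succ j =>
      obtain ⟨a1, a2, a3⟩ := ih _ hxt j (by omega) h0 h1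
      have hx00 : x 0 = 0 := by
        rcases hor with h | h
        · exact h
        · exfalso
          have h2 := congrFun h j
          rw [h2] at h1
          unfold base at h1
          split_ifs at h1
          · rw [norm_GG] at h1
            exact lt_irrefl _ h1
          · rw [norm_one] at h1
            exact lt_irrefl _ h1
      refine ⟨fun i hi => ?_, a2, fun i hi => ?_⟩
      · cases i with
        | zero => exact hx00
        | succ i => exact a1 i (by omega)
      · have := a3 (i - 1) (by omega)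
        rwa [show i - 1 + 1 = i by omega] at this

/-- `j` zeros in front of a sequence -/
def pad (j : ℕ) (x : ℕ → ℂ) : ℕ → ℂ := fun k => if k < j then 0 else x (k - j)

lemma pad_zero (x : ℕ → ℂ) : pad 0 x = x := by
  funext k
  simp [pad]

lemma pad_succ (j : ℕ) (x : ℕ → ℂ) : pad (j + 1) x = cons 0 (pad j x) := by
  funext k
  cases k with
  | zero => simp [pad]
  | succ k =>
    simp only [pad, cons_succ]
    by_cases h : k < j
    · rw [if_pos h, if_pos (by omega)]
    · rw [if_neg h, if_neg (by omega)]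
      congr 1
      omega

lemma pad_mem (n j : ℕ) {x : ℕ → ℂ} (hx : x ∈ WW n) : pad j x ∈ WW (n + j) := by
  induction j with
  | zero => rw [pad_zero]; exact hx
  | succ j ih =>
    rw [pad_succ, ← add_assoc]
    exact ⟨by simp, ih, Or.inl rfl⟩

lemma base_mem (n : ℕ) {z : ℂ} (hz : ‖z‖ = 1) : base z ∈ WW n := by
  induction n generalizing z with
  | zero => exact ⟨hz.le, fun k => rfl⟩
  | succ n ih =>
    have hG : GG z = 1 := by
      unfold GG
      rw [hz, sub_self, max_self, zero_mul, ee_zero]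
    have h1 : (fun k => base z (k + 1)) = base 1 := by
      funext k
      simp [base]
    refine ⟨hz.le, ?_, Or.inr ?_⟩
    · rw [h1]
      exact ih norm_one
    · rw [h1]
      show base 1 = base (GG z)
      rw [hG]

end Pool.Agent.X171.IP
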